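import Mathlib

/-!
Jacobi diagrams on the oriented circle over the integers, modulo AS, IHX and STU.
-/

namespace Pool.Agent.Helper1.JD

/-- The half-edges of a uni-trivalent graph with `t` trivalent vertices (three half-edges each,
in cyclic order `0, 1, 2`) and `l` univalent vertices (one half-edge each, placed on the oriented
circle in the cyclic order `0, 1, ..., l - 1`). -/
abbrev Half (t l : ℕ) : Type := (Fin t × Fin 3) ⊕ Fin l

/-- A set of half-edges is closed if it is stable under passing to the other end of an edge and
under passing to another half-edge at the same trivalent vertex. -/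
def Closed {t l : ℕ} (ι : Half t l → Half t l) (P : Set (Half t l)) : Prop :=
  (∀ h, h ∈ P → ι h ∈ P) ∧
    ∀ (i : Fin t) (k k' : Fin 3), Sum.inl (i, k) ∈ P → Sum.inl (i, k') ∈ P

/-- A Jacobi diagram on the circle with `t` trivalent and `l` univalent vertices: a fixed point
free involution of the half-edges (the edges), such that every component of the uni-trivalent
graph contains a univalent vertex. -/
structure Diag (t l : ℕ) where
  ι : Equiv.Perm (Half t l)
  invol : ∀ h, ι (ι h) = h
  nofix : ∀ h, ι h ≠ h
  legs : ∀ P : Set (Half t l), Closed ι P → P.Nonempty → ∃ j : Fin l, Sum.inr j ∈ P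

/-- The uni-trivalent graph of the diagram is connected. -/
def Diag.Connected {t l : ℕ} (D : Diag t l) : Prop :=
  ∀ P : Set (Half t l), Closed D.ι P → P.Nonempty → P = Set.univ

/-- `D'` is obtained from `D` by moving the ends of the edges by the permutation `g`. -/
def Moved {t l : ℕ} (g : Equiv.Perm (Half t l)) (D D' : Diag t l) : Prop :=
  D'.ι = g * D.ι * g⁻¹

/-- The permutation of the half-edges given by a permutation of the trivalent vertices. -/
def vperm {t l : ℕ} (s : Equiv.Perm (Fin t)) : Equiv.Perm (Half t l) :=
  Equiv.sumCongr (Equiv.prodCongr s (Equiv.refl (Fin 3))) (Equiv.refl (Fin l))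

/-- The permutation of the half-edges given by a permutation of the univalent vertices. -/
def lperm {t l : ℕ} (s : Equiv.Perm (Fin l)) : Equiv.Perm (Half t l) :=
  Equiv.sumCongr (Equiv.refl (Fin t × Fin 3)) s

/-- The half-edge `h` of the diagram `T` (with `l + 2` univalent vertices) as a half-edge of the
diagram `S` of the STU relation: the univalent vertices `l` and `l + 1` become the half-edges `1`
and `2` at the new trivalent vertex `t`. -/
def emb {t l : ℕ} : Half t (l + 2) → Half (t + 1) (l + 1)
  | Sum.inl (i, k) => Sum.inl (i.castSucc, k)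
  | Sum.inr j =>
      if h : (j : ℕ) < l then Sum.inr ⟨j, Nat.lt_succ_of_lt h⟩
      else if (j : ℕ) = l then Sum.inl (Fin.last t, 1) else Sum.inl (Fin.last t, 2)

/-- The free abelian group on all Jacobi diagrams. -/
abbrev Free : Type := FreeAbelianGroup (Σ p : ℕ × ℕ, Diag p.1 p.2)

/-- The generator given by a diagram. -/
def gen {t l : ℕ} (D : Diag t l) : Free := FreeAbelianGroup.of ⟨(t, l), D⟩

/-- The relations. -/
inductive Rel : Free → Prop
  /-- renumbering the trivalent vertices does not change the diagram -/
  | vert {t l : ℕ} (s : Equiv.Perm (Fin t)) (D D' : Diag t l) (h : Moved (vperm s) D D') :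
      Rel (gen D' - gen D)
  /-- rotating the circle does not change the diagram -/
  | rot {t l : ℕ} (D D' : Diag t l) (h : Moved (lperm (finRotate l)) D D') :
      Rel (gen D' - gen D)
  /-- AS: exchanging two half-edges at a trivalent vertex changes the sign -/
  | as {t l : ℕ} (i : Fin t) (k k' : Fin 3) (hk : k ≠ k') (D D' : Diag t l)
      (h : Moved (Equiv.swap (Sum.inl (i, k)) (Sum.inl (i, k'))) D D') :
      Rel (gen D' + gen D)
  /-- IHX: if the half-edges `(i, k)` and `(j, k')` form an edge between different vertices, then
  the sum over the three cyclic permutations of three of the four adjacent half-edges is zero -/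
  | ihx {t l : ℕ} (i j : Fin t) (k k' : Fin 3) (hij : i ≠ j) (D D' D'' : Diag t l)
      (he : D.ι (Sum.inl (i, k)) = Sum.inl (j, k'))
      (h' : Moved (Equiv.swap (Sum.inl (i, k + 2)) (Sum.inl (j, k' + 2)) *
        Equiv.swap (Sum.inl (i, k + 2)) (Sum.inl (j, k' + 1))) D D')
      (h'' : Moved (Equiv.swap (Sum.inl (i, k + 2)) (Sum.inl (j, k' + 2)) *
        Equiv.swap (Sum.inl (i, k + 2)) (Sum.inl (j, k' + 1))) D' D'') :
      Rel (gen D + gen D' + gen D'')
  /-- STU: `T` and `U` differ by exchanging the neighbouring univalent vertices `l` and `l + 1`,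
  and in `S` these two are replaced by a new trivalent vertex joined to the circle -/
  | stu {t l : ℕ} (T U : Diag t (l + 2)) (S : Diag (t + 1) (l + 1))
      (hU : Moved (lperm (Equiv.swap ⟨l, by omega⟩ ⟨l + 1, by omega⟩)) T U)
      (hS : ∀ h, S.ι (emb h) = emb (T.ι h))
      (hS' : S.ι (Sum.inl (Fin.last t, 0)) = Sum.inr (Fin.last l)) :
      Rel (gen T - gen U - gen S)

/-- The group of Jacobi diagrams on the circle with integral coefficients. -/
abbrev A : Type := Free ⧸ AddSubgroup.closure {x : Free | Rel x}

/-- The class of a diagram. -/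
def cls {t l : ℕ} (D : Diag t l) : A := QuotientAddGroup.mk (gen D)

/-- The subgroup spanned by the connected diagrams of degree `d`. -/
def conn (d : ℕ) : AddSubgroup A :=
  AddSubgroup.closure
    {x | ∃ (t l : ℕ) (D : Diag t l), t + l = 2 * d ∧ D.Connected ∧ x = cls D}

/-- The subgroup spanned by the connected diagrams of degree `d` with at least two independent
loops (the first Betti number of the uni-trivalent graph is `(t - l) / 2 + 1`). -/
def twoLoop (d : ℕ) : AddSubgroup A :=
  AddSubgroup.closure
    {x | ∃ (t l : ℕ) (D : Diag t l), t + l = 2 * d ∧ l + 2 ≤ t ∧ D.Connected ∧ x = cls D}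

end Pool.Agent.Helper1.JD
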