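import Pool.Agent.Helper1.JD.Weight

namespace Pool.Agent.Helper1.JD

open Finset

theorem n01 : ∀ k : Fin 3, k ≠ k + 1 := by decide
theorem n02 : ∀ k : Fin 3, k ≠ k + 2 := by decide
theorem n12 : ∀ k : Fin 3, k + 1 ≠ k + 2 := by decide

theorem eps_rot (d : Fin 3 → Fin 3) (k : Fin 3) :
    eps (d 0) (d 1) (d 2) = eps (d k) (d (k + 1)) (d (k + 2)) := by
  have h1 := eps_cyc (d 0) (d 1) (d 2)
  have h2 := eps_cyc (d 1) (d 2) (d 0)
  fin_cases k
  · rfl
  · exact h1.symm
  · exact (h2.trans h1).symm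

section
variable {t l : ℕ}

def rest (i j : Fin t) (c : Half t l → Fin 3) : ℤ :=
  ∏ v ∈ (univ.erase i).erase j,
    eps (c (Sum.inl (v, 0))) (c (Sum.inl (v, 1))) (c (Sum.inl (v, 2)))

theorem vprod_two {i j : Fin t} (hij : i ≠ j) (k k' : Fin 3) (c c' : Half t l → Fin 3)
    (h : ∀ v, v ≠ i → v ≠ j → ∀ s, c' (Sum.inl (v, s)) = c (Sum.inl (v, s))) :
    vprod c' = eps (c' (Sum.inl (i, k))) (c' (Sum.inl (i, k + 1))) (c' (Sum.inl (i, k + 2))) *
      eps (c' (Sum.inl (j, k'))) (c' (Sum.inl (j, k' + 1))) (c' (Sum.inl (j, k' + 2))) *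
      rest i j c := by
  rw [← eps_rot (fun s => c' (Sum.inl (i, s))) k, ← eps_rot (fun s => c' (Sum.inl (j, s))) k']
  unfold vprod rest
  rw [← Finset.mul_prod_erase univ _ (mem_univ i)]
  rw [← Finset.mul_prod_erase (univ.erase i) _ (Finset.mem_erase.2 ⟨hij.symm, mem_univ j⟩)]
  rw [mul_assoc]
  congr 2
  refine Finset.prod_congr rfl fun v hv => ?_
  have h1 : v ≠ j := Finset.ne_of_mem_erase hv
  have h2 : v ≠ i := Finset.ne_of_mem_erase (Finset.mem_of_mem_erase hv)
  rw [h v h2 h1, h v h2 h1, h v h2 h1]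

/-- shift of the colour of an edge -/
def shift (x y : Half t l) (m : Fin 3) (c : Half t l → Fin 3) : Half t l → Fin 3 :=
  fun h => if h = x ∨ h = y then c h + m else c h

theorem shift_mem {ι : Half t l → Half t l} (hι : ∀ h, ι (ι h) = h) {x y : Half t l} (hxy : ι x = y)
    (m : Fin 3) {c : Half t l → Fin 3} (hc : c ∈ col ι) : shift x y m c ∈ col ι := by
  rw [mem_col] at hc ⊢
  have hyx : ι y = x := by rw [← hxy, hι]
  intro h
  unfold shift
  by_cases h1 : h = x
  · subst h1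
    rw [hxy, if_pos (Or.inr rfl), if_pos (Or.inl rfl), ← hxy, hc]
  · by_cases h2 : h = y
    · subst h2
      rw [hyx, if_pos (Or.inl rfl), if_pos (Or.inr rfl), ← hyx, hc]
    · have h3 : ι h ≠ x := fun e => h2 (by rw [← hxy, ← e, hι])
      have h4 : ι h ≠ y := fun e => h1 (by rw [← hyx, ← e, hι])
      rw [if_neg (by tauto), if_neg (by tauto), hc]

theorem sum_shift {B : Type*} [AddCommGroup B] {ι : Half t l → Half t l} (hι : ∀ h, ι (ι h) = h)
    {x y : Half t l} (hxy : ι x = y) (F : (Half t l → Fin 3) → B) (m : Fin 3) :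
    ∑ c ∈ col ι, F c = ∑ c ∈ col ι, F (shift x y m c) := by
  symm
  refine Finset.sum_bij' (fun c _ => shift x y m c) (fun c _ => shift x y (-m) c)
    (fun c hc => shift_mem hι hxy m hc) (fun c hc => shift_mem hι hxy (-m) hc) ?_ ?_ ?_
  · intro c _
    funext h
    unfold shift
    split_ifs <;> simp
  · intro c _
    funext h
    unfold shift
    split_ifs <;> simp
  · intro c _
    rfl

variable {R : Type*} [Ring R] {B : Type*} [AddCommGroup B] (X : Fin 3 → R) (τ : R →+ B)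

theorem wt_ihx (h3 : ∀ b : B, (3 : ℤ) • b = 0 → b = 0) (i j : Fin t) (k k' : Fin 3) (hij : i ≠ j)
    (D D' D'' : Diag t l)
    (he : D.ι (Sum.inl (i, k)) = Sum.inl (j, k'))
    (h' : Moved (Equiv.swap (Sum.inl (i, k + 2)) (Sum.inl (j, k' + 2)) *
      Equiv.swap (Sum.inl (i, k + 2)) (Sum.inl (j, k' + 1))) D D')
    (h'' : Moved (Equiv.swap (Sum.inl (i, k + 2)) (Sum.inl (j, k' + 2)) *
      Equiv.swap (Sum.inl (i, k + 2)) (Sum.inl (j, k' + 1))) D' D'') :
    wt X τ D + wt X τ D' + wt X τ D'' = 0 := by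
  set g : Equiv.Perm (Half t l) := Equiv.swap (Sum.inl (i, k + 2)) (Sum.inl (j, k' + 2)) *
      Equiv.swap (Sum.inl (i, k + 2)) (Sum.inl (j, k' + 1)) with hg
  have hgg : Moved (g * g) D D'' := by
    unfold Moved at *
    rw [h'', h']
    group
  unfold wt
  rw [csum_moved X τ h', csum_moved X τ hgg]
  unfold csum
  rw [← smul_add, ← smul_add, ← Finset.sum_add_distrib, ← Finset.sum_add_distrib]
  have hkk : k ≠ k + 2 := n02 k
  have hkk1 : k + 1 ≠ k + 2 := n12 k
  have hk'1 : k' ≠ k' + 1 := n01 k'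
  have hk'2 : k' ≠ k' + 2 := n02 k'
  have hk'12 : k' + 1 ≠ k' + 2 := n12 k'
  have gs : ∀ x, g.symm x = Equiv.swap (Sum.inl (i, k + 2)) (Sum.inl (j, k' + 1))
      (Equiv.swap (Sum.inl (i, k + 2)) (Sum.inl (j, k' + 2)) x) := by
    intro x
    rw [Equiv.symm_apply_eq, hg]
    simp
  have ga : g.symm (Sum.inl (i, k + 2)) = Sum.inl (j, k' + 2) := by
    rw [gs, Equiv.swap_apply_left, Equiv.swap_apply_of_ne_of_ne]
    · simp [hij.symm]
    · simp [hk'12.symm]
  have gb1 : g.symm (Sum.inl (j, k' + 1)) = Sum.inl (i, k + 2) := by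
    rw [gs, Equiv.swap_apply_of_ne_of_ne (a := Sum.inl (i, k + 2)) (b := Sum.inl (j, k' + 2)),
      Equiv.swap_apply_right]
    · simp [hij.symm]
    · simp [hk'12]
  have gb2 : g.symm (Sum.inl (j, k' + 2)) = Sum.inl (j, k' + 1) := by
    rw [gs, Equiv.swap_apply_right, Equiv.swap_apply_left]
  have gne : ∀ x, x ≠ Sum.inl (i, k + 2) → x ≠ Sum.inl (j, k' + 1) → x ≠ Sum.inl (j, k' + 2) →
      g.symm x = x := by
    intro x h1 h2 h3
    rw [gs, Equiv.swap_apply_of_ne_of_ne h1 h3, Equiv.swap_apply_of_ne_of_ne h1 h2]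
  have gi0 : g.symm (Sum.inl (i, k)) = Sum.inl (i, k) :=
    gne _ (by simp [hkk]) (by simp [hij]) (by simp [hij])
  have gi1 : g.symm (Sum.inl (i, k + 1)) = Sum.inl (i, k + 1) :=
    gne _ (by simp) (by simp [hij]) (by simp [hij])
  have gj0 : g.symm (Sum.inl (j, k')) = Sum.inl (j, k') :=
    gne _ (by simp [hij.symm]) (by simp) (by simp [hk'2])
  have gv : ∀ v, v ≠ i → v ≠ j → ∀ s, g.symm (Sum.inl (v, s)) = Sum.inl (v, s) := by
    intro v h1 h2 s
    exact gne _ (by simp [h1]) (by simp [h2]) (by simp [h2])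
  have gl : ∀ r, g.symm (Sum.inr r) = Sum.inr r := by
    intro r
    exact gne _ (by simp) (by simp) (by simp)
  have ggs : ∀ x, (g * g).symm x = g.symm (g.symm x) := by
    intro x
    rw [Equiv.symm_apply_eq]
    simp
  -- the summand
  have hF : ∀ c : Half t l → Fin 3, c ∈ col D.ι →
      term X τ c + term X τ (fun x => c (g.symm x)) + term X τ (fun x => c ((g * g).symm x)) =
      ((eps (c (Sum.inl (i, k))) (c (Sum.inl (i, k + 1))) (c (Sum.inl (i, k + 2))) *
        eps (c (Sum.inl (i, k))) (c (Sum.inl (j, k' + 1))) (c (Sum.inl (j, k' + 2))) +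
        eps (c (Sum.inl (i, k))) (c (Sum.inl (i, k + 1))) (c (Sum.inl (j, k' + 2))) *
        eps (c (Sum.inl (i, k))) (c (Sum.inl (i, k + 2))) (c (Sum.inl (j, k' + 1))) +
        eps (c (Sum.inl (i, k))) (c (Sum.inl (i, k + 1))) (c (Sum.inl (j, k' + 1))) *
        eps (c (Sum.inl (i, k))) (c (Sum.inl (j, k' + 2))) (c (Sum.inl (i, k + 2)))) *
        rest i j c) • legval X τ c := by
    intro c hc
    rw [mem_col] at hc
    have hce : c (Sum.inl (j, k')) = c (Sum.inl (i, k)) := by rw [← he, hc]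
    unfold term
    have l1 : legval X τ (fun x => c (g.symm x)) = legval X τ c := by
      unfold legval
      simp only [gl]
    have l2 : legval X τ (fun x => c ((g * g).symm x)) = legval X τ c := by
      unfold legval
      simp only [ggs, gl]
    rw [l1, l2, ← add_smul, ← add_smul]
    congr 1
    rw [vprod_two hij k k' c c (fun _ _ _ _ => rfl),
      vprod_two hij k k' c (fun x => c (g.symm x)) (fun v h1 h2 s => by rw [gv v h1 h2]),
      vprod_two hij k k' c (fun x => c ((g * g).symm x))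
        (fun v h1 h2 s => by rw [ggs, gv v h1 h2, gv v h1 h2])]
    simp only [ggs, ga, gb1, gb2, gi0, gi1, gj0, hce]
    ring
  rw [Finset.sum_congr rfl hF]
  -- three times the sum vanishes
  set G : (Half t l → Fin 3) → B := fun c =>
      ((eps (c (Sum.inl (i, k))) (c (Sum.inl (i, k + 1))) (c (Sum.inl (i, k + 2))) *
        eps (c (Sum.inl (i, k))) (c (Sum.inl (j, k' + 1))) (c (Sum.inl (j, k' + 2))) +
        eps (c (Sum.inl (i, k))) (c (Sum.inl (i, k + 1))) (c (Sum.inl (j, k' + 2))) *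
        eps (c (Sum.inl (i, k))) (c (Sum.inl (i, k + 2))) (c (Sum.inl (j, k' + 1))) +
        eps (c (Sum.inl (i, k))) (c (Sum.inl (i, k + 1))) (c (Sum.inl (j, k' + 1))) *
        eps (c (Sum.inl (i, k))) (c (Sum.inl (j, k' + 2))) (c (Sum.inl (i, k + 2)))) *
        rest i j c) • legval X τ c with hG
  have hS : ∑ c ∈ col D.ι, G c = 0 := by
    apply h3
    have e : (3 : ℤ) • ∑ c ∈ col D.ι, G c =
        ∑ m : Fin 3, ∑ c ∈ col D.ι, G (shift (Sum.inl (i, k)) (Sum.inl (j, k')) m c) := by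
      simp only [← sum_shift D.invol he G]
      rw [Finset.sum_const, Finset.card_univ, Fintype.card_fin, ← natCast_zsmul]
      rfl
    rw [e, Finset.sum_comm]
    refine Finset.sum_eq_zero fun c _ => ?_
    have sx : ∀ m, shift (Sum.inl (i, k)) (Sum.inl (j, k')) m c (Sum.inl (i, k)) =
        c (Sum.inl (i, k)) + m := by
      intro m; unfold shift; rw [if_pos (Or.inl rfl)]
    have sne : ∀ m h, h ≠ Sum.inl (i, k) → h ≠ Sum.inl (j, k') →
        shift (Sum.inl (i, k)) (Sum.inl (j, k')) m c h = c h := by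
      intro m h h1 h2; unfold shift; rw [if_neg (by tauto)]
    have s1 : ∀ m, shift (Sum.inl (i, k)) (Sum.inl (j, k')) m c (Sum.inl (i, k + 1)) =
        c (Sum.inl (i, k + 1)) := fun m => sne m _ (by simp) (by simp [hij])
    have s2 : ∀ m, shift (Sum.inl (i, k)) (Sum.inl (j, k')) m c (Sum.inl (i, k + 2)) =
        c (Sum.inl (i, k + 2)) := fun m => sne m _ (by simp [hkk.symm]) (by simp [hij])
    have s3 : ∀ m, shift (Sum.inl (i, k)) (Sum.inl (j, k')) m c (Sum.inl (j, k' + 1)) =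
        c (Sum.inl (j, k' + 1)) := fun m => sne m _ (by simp [hij.symm]) (by simp)
    have s4 : ∀ m, shift (Sum.inl (i, k)) (Sum.inl (j, k')) m c (Sum.inl (j, k' + 2)) =
        c (Sum.inl (j, k' + 2)) := fun m => sne m _ (by simp [hij.symm]) (by simp [hk'2.symm])
    have sr : ∀ m, rest i j (shift (Sum.inl (i, k)) (Sum.inl (j, k')) m c) = rest i j c := by
      intro m
      unfold rest
      refine Finset.prod_congr rfl fun v hv => ?_
      have h1 : v ≠ j := Finset.ne_of_mem_erase hv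
      have h2 : v ≠ i := Finset.ne_of_mem_erase (Finset.mem_of_mem_erase hv)
      rw [sne m _ (by simp [h2]) (by simp [h1]), sne m _ (by simp [h2]) (by simp [h1]),
        sne m _ (by simp [h2]) (by simp [h1])]
    have sl : ∀ m, legval X τ (shift (Sum.inl (i, k)) (Sum.inl (j, k')) m c) = legval X τ c := by
      intro m
      unfold legval
      congr 3
    simp only [hG, sx, s1, s2, s3, s4, sr, sl]
    rw [← Finset.sum_smul, ← Finset.sum_mul]
    have key := eps_ihx (c (Sum.inl (i, k + 1))) (c (Sum.inl (i, k + 2)))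
      (c (Sum.inl (j, k' + 1))) (c (Sum.inl (j, k' + 2)))
    have sh : ∀ (f : Fin 3 → ℤ) (a : Fin 3), ∑ m : Fin 3, f (a + m) = ∑ m : Fin 3, f m := by
      intro f a
      exact Fintype.sum_equiv (Equiv.addLeft a) _ _ (fun m => rfl)
    rw [sh (fun κ => eps κ (c (Sum.inl (i, k + 1))) (c (Sum.inl (i, k + 2))) *
        eps κ (c (Sum.inl (j, k' + 1))) (c (Sum.inl (j, k' + 2))) +
        eps κ (c (Sum.inl (i, k + 1))) (c (Sum.inl (j, k' + 2))) *
        eps κ (c (Sum.inl (i, k + 2))) (c (Sum.inl (j, k' + 1))) +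
        eps κ (c (Sum.inl (i, k + 1))) (c (Sum.inl (j, k' + 1))) *
        eps κ (c (Sum.inl (j, k' + 2))) (c (Sum.inl (i, k + 2)))), key]
    simp
  rw [hS, smul_zero]

end

end Pool.Agent.Helper1.JD
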