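import Pool.Agent.Helper1.JD.Wheel

namespace Pool.Agent.Helper1.JD

open Finset

/-- the quaternions `i, j, k` -/
def Xq : Fin 3 → Quaternion ℤ := ![⟨0, 1, 0, 0⟩, ⟨0, 0, 1, 0⟩, ⟨0, 0, 0, 1⟩]

/-- real part -/
def tq : Quaternion ℤ →+ ℤ where
  toFun x := x.re
  map_zero' := rfl
  map_add' _ _ := rfl

theorem tq_mul (x y : Quaternion ℤ) : tq (x * y) = tq (y * x) := by
  show (x * y).re = (y * x).re
  rw [Quaternion.re_mul, Quaternion.re_mul]
  ring

theorem Xq_rel : ∀ a b, Xq a * Xq b - Xq b * Xq a = ∑ k, (2 * eps a b k) • Xq k := by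
  intro a b
  rw [Fin.sum_univ_three]
  fin_cases a <;> fin_cases b <;> ext <;>
    simp [Xq, eps, Quaternion.re_mul, Quaternion.imI_mul, Quaternion.imJ_mul, Quaternion.imK_mul] <;>
    rfl

theorem Om_sq : Om Xq ^ 2 = (2 : ℤ) • (1 : Matrix (Fin 3) (Fin 3) (Quaternion ℤ)) - Om Xq := by
  rw [pow_two]
  ext a b <;>
  simp only [Matrix.mul_apply, Fin.sum_univ_three, Om, Matrix.sub_apply, Matrix.smul_apply] <;>
  fin_cases a <;> fin_cases b <;>
    simp [Xq, eps, Quaternion.re_mul, Quaternion.imI_mul, Quaternion.imJ_mul,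
      Quaternion.imK_mul] <;>
    rfl

theorem tr_q : ∀ n : ℕ, tq (Matrix.trace (Om Xq ^ n)) = 2 + (-2) ^ n
  | 0 => by
    rw [pow_zero, Matrix.trace_one]
    rfl
  | 1 => by
    rw [pow_one]
    simp [Matrix.trace, Om, eps, tq, Xq]
    rfl
  | n + 2 => by
    have h0 := tr_q n
    have h1 := tr_q (n + 1)
    have e : Om Xq ^ (n + 2) = (2 : ℤ) • Om Xq ^ n - Om Xq ^ (n + 1) := by
      rw [pow_add, Om_sq, mul_sub, mul_smul_comm, mul_one, pow_succ]
    rw [e, Matrix.trace_sub, Matrix.trace_smul, map_sub, map_zsmul, h0, h1]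
    simp only [zsmul_eq_mul]
    push_cast
    ring

theorem eps_swap : ∀ a b c : Fin 3,
    eps (Equiv.swap 0 1 a) (Equiv.swap 0 1 b) (Equiv.swap 0 1 c) = - eps a b c := by decide

/-- the automorphism `i → j, j → i, k → -k` -/
def phi (x : Quaternion ℤ) : Quaternion ℤ := ⟨x.re, x.imJ, x.imI, -x.imK⟩

theorem phi_mul (x y : Quaternion ℤ) : phi (x * y) = phi x * phi y := by
  unfold phi
  ext <;>
    simp only [Quaternion.re_mul, Quaternion.imI_mul, Quaternion.imJ_mul, Quaternion.imK_mul] <;>
    ring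

theorem phi_X (a : Fin 3) : Xq (Equiv.swap 0 1 a) = phi (Xq a) ∨
    Xq (Equiv.swap 0 1 a) = - phi (Xq a) := by
  fin_cases a
  · left; rfl
  · left; rfl
  · right; rfl

theorem phi_list : ∀ L : List (Fin 3),
    ((L.map fun a => Xq (Equiv.swap 0 1 a)).prod = phi (L.map Xq).prod) ∨
    ((L.map fun a => Xq (Equiv.swap 0 1 a)).prod = - phi (L.map Xq).prod)
  | [] => by left; rfl
  | a :: L => by
    simp only [List.map_cons, List.prod_cons]
    rw [phi_mul]
    rcases phi_X a with h | h <;> rcases phi_list L with h' | h' <;> rw [h, h']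
    · left; rfl
    · right; rw [mul_neg]
    · right; rw [neg_mul]
    · left; rw [neg_mul_neg]

theorem term_swap {t l : ℕ} (c : Half t l → Fin 3) :
    term Xq tq (fun h => Equiv.swap 0 1 (c h)) = term Xq tq c ∨
    term Xq tq (fun h => Equiv.swap 0 1 (c h)) = - term Xq tq c := by
  have h1 : vprod (fun h => Equiv.swap 0 1 (c h)) = vprod c ∨
      vprod (fun h => Equiv.swap 0 1 (c h)) = - vprod c := by
    have : vprod (fun h => Equiv.swap 0 1 (c h)) = (-1) ^ t * vprod c := by
      unfold vprod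
      simp only [eps_swap]
      rw [Finset.prod_neg]
      simp
    rw [this]
    rcases neg_one_pow_eq_or ℤ t with h | h <;> rw [h]
    · left; ring
    · right; ring
  have h2 : legval Xq tq (fun h => Equiv.swap 0 1 (c h)) = legval Xq tq c ∨
      legval Xq tq (fun h => Equiv.swap 0 1 (c h)) = - legval Xq tq c := by
    unfold legval
    have := phi_list (List.ofFn fun j : Fin l => c (Sum.inr j))
    rw [List.map_ofFn, List.map_ofFn] at this
    rcases this with h | h
    · left
      have e : (List.ofFn fun j : Fin l => Xq (Equiv.swap 0 1 (c (Sum.inr j)))).prod =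
        phi (List.ofFn fun j : Fin l => Xq (c (Sum.inr j))).prod := h
      rw [e]; rfl
    · right
      have e : (List.ofFn fun j : Fin l => Xq (Equiv.swap 0 1 (c (Sum.inr j)))).prod =
        - phi (List.ofFn fun j : Fin l => Xq (c (Sum.inr j))).prod := h
      rw [e]; rfl
  unfold term
  rcases h1 with h | h <;> rcases h2 with h' | h' <;> rw [h, h'] <;> simp

theorem csum_even {t l : ℕ} (ht : 1 ≤ t) (D : Diag t l) : 2 ∣ csum Xq tq D := by
  have : ((csum Xq tq D : ℤ) : ZMod 2) = 0 := by
    unfold csum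
    rw [Int.cast_sum]
    refine Finset.sum_involution (fun c _ => fun h => Equiv.swap 0 1 (c h)) ?_ ?_ ?_ ?_
    · intro c _
      rcases term_swap c with h | h <;> rw [h]
      · rw [← two_mul]
        have : (2 : ZMod 2) = 0 := rfl
        rw [this, zero_mul]
      · push_cast; ring
    · intro c _ hc hcc
      apply hc
      have h2 : ∀ h, c h = 2 := by
        intro h
        have := congrFun hcc h
        have key : ∀ x : Fin 3, Equiv.swap 0 1 x = x → x = 2 := by decide
        exact key _ this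
      have : vprod c = 0 := by
        unfold vprod
        apply Finset.prod_eq_zero (mem_univ (⟨0, ht⟩ : Fin t))
        rw [h2, h2, h2]
        decide
      unfold term
      rw [this]
      simp
    · intro c hc
      rw [mem_col] at hc ⊢
      intro h
      rw [hc]
    · intro c _
      funext h
      simp
  exact_mod_cast (ZMod.intCast_zmod_eq_zero_iff_dvd _ 2).1 this

/-- The quaternionic weight system. -/
theorem exists_quat : ∃ W : A →+ ℤ, (∀ (t l : ℕ) (D : Diag t l), 1 ≤ t → 2 ^ (t + 1) ∣ W (cls D)) ∧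
    ∀ n, W (cls (wheel n)) = 2 ^ (n + 1) * (2 + (-2) ^ (n + 1)) := by
  obtain ⟨W, hW⟩ := exists_weight Xq tq (fun b hb => by simpa using hb) tq_mul Xq_rel
  refine ⟨W, ?_, ?_⟩
  · intro t l D ht
    rw [hW]
    unfold wt
    rw [pow_succ, smul_eq_mul]
    exact mul_dvd_mul_left _ (csum_even ht D)
  · intro n
    rw [hW, wt_wheel, tr_q, smul_eq_mul]

end Pool.Agent.Helper1.JD
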