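import Pool.Agent.Helper1.JD.Wheel

namespace Pool.Agent.Helper1.JD

open Finset

section cube
variable {R : Type*} [Ring R] (x y z : R) (c : ℤ)

theorem rel_of (h1 : x * y - y * x = (2 : ℤ) • z) (h2 : y * z - z * y = (2 : ℤ) • x)
    (h3 : z * x - x * z = (2 : ℤ) • y) (a b : Fin 3) :
    (![x, y, z] : Fin 3 → R) a * (![x, y, z] : Fin 3 → R) b -
      (![x, y, z] : Fin 3 → R) b * (![x, y, z] : Fin 3 → R) a =
      ∑ k, (2 * eps a b k) • (![x, y, z] : Fin 3 → R) k := by
  rw [Fin.sum_univ_three]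
  have h1' : y * x - x * y = -((2 : ℤ) • z) := by rw [← h1]; abel
  have h2' : z * y - y * z = -((2 : ℤ) • x) := by rw [← h2]; abel
  have h3' : x * z - z * x = -((2 : ℤ) • y) := by rw [← h3]; abel
  fin_cases a <;> fin_cases b
  · simp [eps]
  · show x * y - y * x = _
    rw [h1]; simp [eps]
  · show x * z - z * x = _
    rw [h3']; simp [eps]
  · show y * x - x * y = _
    rw [h1']; simp [eps]
  · simp [eps]
  · show y * z - z * y = _
    rw [h2]; simp [eps]
  · show z * x - x * z = _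
    rw [h3]; simp [eps]
  · show z * y - y * z = _
    rw [h2']; simp [eps]
  · simp [eps]

theorem Om_eq : Om (![x, y, z] : Fin 3 → R) = !![0, z, -y; -z, 0, x; y, -x, 0] := by
  ext a b
  unfold Om
  rw [Fin.sum_univ_three]
  fin_cases a <;> fin_cases b <;> simp [eps]

theorem cube (h1 : x * y - y * x = (2 : ℤ) • z) (h2 : y * z - z * y = (2 : ℤ) • x)
    (h3 : z * x - x * z = (2 : ℤ) • y) (hc : x * x + y * y + z * z = c • 1) :
    Om (![x, y, z] : Fin 3 → R) ^ 3 = (-4 : ℤ) • Om (![x, y, z] : Fin 3 → R) ^ 2 +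
      (-(4 + c)) • Om (![x, y, z] : Fin 3 → R) + (-(2 * c)) • (1 : Matrix (Fin 3) (Fin 3) R) := by
  have r1 : y * x = x * y - (2 : ℤ) • z := by rw [← h1]; abel
  have r2 : z * y = y * z - (2 : ℤ) • x := by rw [← h2]; abel
  have r3 : z * x = x * z + (2 : ℤ) • y := by rw [← h3]; abel
  have r4 : z * z = c • 1 - x * x - y * y := by rw [← hc]; abel
  have r1' : ∀ w, y * (x * w) = x * (y * w) - (2 : ℤ) • (z * w) := by
    intro w; rw [← mul_assoc, r1, sub_mul, smul_mul_assoc, mul_assoc]
  have r2' : ∀ w, z * (y * w) = y * (z * w) - (2 : ℤ) • (x * w) := by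
    intro w; rw [← mul_assoc, r2, sub_mul, smul_mul_assoc, mul_assoc]
  have r3' : ∀ w, z * (x * w) = x * (z * w) + (2 : ℤ) • (y * w) := by
    intro w; rw [← mul_assoc, r3, add_mul, smul_mul_assoc, mul_assoc]
  have r4' : ∀ w, z * (z * w) = c • w - x * (x * w) - y * (y * w) := by
    intro w; rw [← mul_assoc, r4, sub_mul, sub_mul, smul_mul_assoc, one_mul, mul_assoc, mul_assoc]
  rw [Om_eq, pow_three, pow_two]
  ext a b
  simp only [Matrix.mul_apply, Fin.sum_univ_three, Matrix.add_apply, Matrix.smul_apply]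
  fin_cases a <;> fin_cases b <;>
    simp only [Matrix.of_apply, Matrix.cons_val_zero, Matrix.cons_val_one, Matrix.cons_val_two,
      Matrix.cons_val, Matrix.head_cons, Matrix.tail_cons, Fin.zero_eta, Fin.mk_one,
      Fin.reduceFinMk, Matrix.one_apply, Fin.isValue, mul_zero, zero_mul, add_zero, zero_add,
      mul_assoc, mul_sub, mul_add, sub_mul, add_mul, smul_mul_assoc, mul_smul_comm, neg_mul,
      mul_neg, neg_neg, r1, r2, r3, r4, r1', r2', r3', r4', mul_one, smul_zero, neg_zero,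
      if_true, Fin.reduceEq, if_false] <;>
    module

end cube

end Pool.Agent.Helper1.JD
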