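import Pool.Agent.Helper1.JD.Spin

namespace Pool.Agent.Helper1.JD

open Finset

section mats
variable (N : ℕ)

/-- raising operator -/
def mE : Matrix (Fin N) (Fin N) ℂ := fun i j => if (i : ℕ) + 1 = j then ((j : ℕ) : ℂ) else 0

/-- lowering operator -/
def mF : Matrix (Fin N) (Fin N) ℂ :=
  fun i j => if (j : ℕ) + 1 = i then ((N : ℂ) - 1 - ((j : ℕ) : ℂ)) else 0

/-- weights -/
def mH : Matrix (Fin N) (Fin N) ℂ := Matrix.diagonal fun i => (N : ℂ) - 1 - 2 * ((i : ℕ) : ℂ)

theorem mHE : mH N * mE N - mE N * mH N = (2 : ℤ) • mE N := by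
  ext i j
  rw [Matrix.sub_apply, mH, Matrix.diagonal_mul, Matrix.mul_diagonal, Matrix.smul_apply]
  unfold mE
  split_ifs with h
  · have : ((j : ℕ) : ℂ) = ((i : ℕ) : ℂ) + 1 := by exact_mod_cast h.symm
    rw [this]
    simp
    ring
  · simp

theorem mHF : mH N * mF N - mF N * mH N = -((2 : ℤ) • mF N) := by
  ext i j
  rw [Matrix.sub_apply, mH, Matrix.diagonal_mul, Matrix.mul_diagonal, Matrix.neg_apply,
    Matrix.smul_apply]
  unfold mF
  split_ifs with h
  · have : ((i : ℕ) : ℂ) = ((j : ℕ) : ℂ) + 1 := by exact_mod_cast h.symm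
    rw [this]
    simp
    ring
  · simp

theorem mEF : mE N * mF N =
    Matrix.diagonal fun i : Fin N => (((i : ℕ) : ℂ) + 1) * ((N : ℂ) - 1 - ((i : ℕ) : ℂ)) := by
  ext i j
  rw [Matrix.mul_apply]
  by_cases hi : (i : ℕ) + 1 < N
  · rw [Finset.sum_eq_single (⟨(i : ℕ) + 1, hi⟩ : Fin N)]
    · by_cases hij : i = j
      · subst hij
        simp [mE, mF]
      · have : ¬ ((j : ℕ) = (i : ℕ)) := fun h => hij (Fin.ext h.symm)
        rw [Matrix.diagonal_apply_ne _ hij]
        simp [mE, mF, this]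
    · intro k _ hk
      have : ¬ ((i : ℕ) + 1 = k) := fun h => hk (Fin.ext h.symm)
      simp [mE, this]
    · simp
  · have hN : (i : ℕ) + 1 = N := by have := i.2; omega
    rw [Finset.sum_eq_zero]
    · by_cases hij : i = j
      · subst hij
        rw [Matrix.diagonal_apply_eq]
        have : (N : ℂ) = ((i : ℕ) : ℂ) + 1 := by exact_mod_cast hN.symm
        rw [this]
        ring
      · rw [Matrix.diagonal_apply_ne _ hij]
    · intro k _
      have : ¬ ((i : ℕ) + 1 = k) := by have := k.2; omega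
      simp [mE, this]

theorem mFE : mF N * mE N =
    Matrix.diagonal fun i : Fin N => ((i : ℕ) : ℂ) * ((N : ℂ) - ((i : ℕ) : ℂ)) := by
  ext i j
  rw [Matrix.mul_apply]
  by_cases hi : 1 ≤ (i : ℕ)
  · rw [Finset.sum_eq_single (⟨(i : ℕ) - 1, by have := i.2; omega⟩ : Fin N)]
    · by_cases hij : i = j
      · subst hij
        have h1 : (i : ℕ) - 1 + 1 = i := by omega
        have h2 : (((i : ℕ) - 1 : ℕ) : ℂ) = ((i : ℕ) : ℂ) - 1 := by
          rw [Nat.cast_sub hi]; simp
        simp [mE, mF, h1, h2]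
        ring
      · have h1 : (i : ℕ) - 1 + 1 = i := by omega
        have : ¬ ((i : ℕ) = (j : ℕ)) := fun h => hij (Fin.ext h)
        rw [Matrix.diagonal_apply_ne _ hij]
        simp [mE, mF, h1, this]
    · intro k _ hk
      have : ¬ ((k : ℕ) + 1 = i) := fun h => hk (Fin.ext (by simp; omega))
      simp [mF, this]
    · simp
  · have h0 : (i : ℕ) = 0 := by omega
    rw [Finset.sum_eq_zero]
    · by_cases hij : i = j
      · subst hij
        rw [Matrix.diagonal_apply_eq, h0]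
        simp
      · rw [Matrix.diagonal_apply_ne _ hij]
    · intro k _
      have : ¬ ((k : ℕ) + 1 = i) := by omega
      simp [mF, this]

theorem mEFFE : mE N * mF N - mF N * mE N = mH N := by
  rw [mEF, mFE, mH, Matrix.diagonal_sub]
  congr 1
  funext i
  ring

theorem II_mul (A B : Matrix (Fin N) (Fin N) ℂ) :
    ((-Complex.I) • A) * ((-Complex.I) • B) = -(A * B) := by
  rw [smul_mul_smul_comm, neg_mul_neg, Complex.I_mul_I, neg_one_smul]

/-- the three matrices -/
def mX : Matrix (Fin N) (Fin N) ℂ := (-Complex.I) • (mE N + mF N)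
def mY : Matrix (Fin N) (Fin N) ℂ := mF N - mE N
def mZ : Matrix (Fin N) (Fin N) ℂ := (-Complex.I) • mH N

theorem mXY : mX N * mY N - mY N * mX N = (2 : ℤ) • mZ N := by
  unfold mX mY mZ
  rw [← mEFFE]
  simp only [mul_sub, sub_mul, mul_add, add_mul, smul_mul_assoc, mul_smul_comm]
  module

theorem mYZ : mY N * mZ N - mZ N * mY N = (2 : ℤ) • mX N := by
  have h1 := mHE N
  have h2 := mHF N
  have h3 : mH N * mE N = mE N * mH N + (2 : ℤ) • mE N := by rw [← h1]; abel
  have h4 : mH N * mF N = mF N * mH N - (2 : ℤ) • mF N := by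
    rw [sub_eq_add_neg, ← h2]; abel
  unfold mX mY mZ
  simp only [mul_sub, sub_mul, mul_add, add_mul, smul_mul_assoc, mul_smul_comm, h3, h4]
  module

theorem mZX : mZ N * mX N - mX N * mZ N = (2 : ℤ) • mY N := by
  have h1 := mHE N
  have h2 := mHF N
  have h3 : mH N * mE N = mE N * mH N + (2 : ℤ) • mE N := by rw [← h1]; abel
  have h4 : mH N * mF N = mF N * mH N - (2 : ℤ) • mF N := by
    rw [sub_eq_add_neg, ← h2]; abel
  unfold mX mY mZ
  rw [II_mul, II_mul]
  simp only [mul_add, add_mul, h3, h4]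
  module

theorem mCas : mX N * mX N + mY N * mY N + mZ N * mZ N = ((1 : ℤ) - (N : ℤ) ^ 2) • 1 := by
  have h : mX N * mX N + mY N * mY N + mZ N * mZ N =
      -((2 : ℤ) • (mE N * mF N + mF N * mE N) + mH N * mH N) := by
    unfold mX mY mZ
    rw [II_mul, II_mul]
    simp only [mul_sub, sub_mul, mul_add, add_mul]
    module
  rw [h, mEF, mFE, mH, Matrix.diagonal_mul_diagonal]
  ext i j
  simp only [Matrix.neg_apply, Matrix.add_apply, Matrix.smul_apply]
  by_cases hij : i = j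
  · subst hij
    simp only [Matrix.diagonal_apply_eq, Matrix.one_apply_eq]
    simp only [zsmul_eq_mul]
    push_cast
    ring
  · simp [Matrix.diagonal_apply_ne _ hij, Matrix.one_apply_ne hij]

/-- the generators -/
def Xs : Fin 3 → Matrix (Fin N) (Fin N) ℂ := ![mX N, mY N, mZ N]

/-- the trace -/
def ts : Matrix (Fin N) (Fin N) ℂ →+ ℂ := Matrix.traceAddMonoidHom (Fin N) ℂ

theorem ts_mul (x y : Matrix (Fin N) (Fin N) ℂ) : ts N (x * y) = ts N (y * x) :=
  Matrix.trace_mul_comm x y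

theorem Xs_rel : ∀ a b, Xs N a * Xs N b - Xs N b * Xs N a = ∑ k, (2 * eps a b k) • Xs N k :=
  rel_of _ _ _ (mXY N) (mYZ N) (mZX N)

theorem tr_s0 : ts N (Matrix.trace (Om (Xs N) ^ 0)) = 3 * (N : ℂ) := by
  rw [pow_zero, Matrix.trace_one]
  have : ts N ((Fintype.card (Fin 3) : ℕ) : Matrix (Fin N) (Fin N) ℂ) = 3 * (N : ℂ) := by
    have e : (((Fintype.card (Fin 3) : ℕ)) : Matrix (Fin N) (Fin N) ℂ) =
        (3 : ℤ) • (1 : Matrix (Fin N) (Fin N) ℂ) := by
      simp
    rw [e, map_zsmul]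
    have : ts N 1 = (N : ℂ) := by
      show Matrix.trace (1 : Matrix (Fin N) (Fin N) ℂ) = _
      rw [Matrix.trace_one]
      simp
    rw [this]
    simp
  exact this

theorem tr_s1 : ts N (Matrix.trace (Om (Xs N) ^ 1)) = 0 := by
  rw [pow_one, Xs, Om_eq]
  simp [Matrix.trace, Fin.sum_univ_three]

theorem tr_s2 : ts N (Matrix.trace (Om (Xs N) ^ 2)) = 2 * ((N : ℂ) ^ 2 - 1) * N := by
  have e : Matrix.trace (Om (Xs N) ^ 2) =
      -((2 : ℤ) • (mX N * mX N + mY N * mY N + mZ N * mZ N)) := by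
    rw [pow_two, Xs, Om_eq, Matrix.trace, Fin.sum_univ_three]
    simp only [Matrix.diag_apply, Matrix.mul_apply, Fin.sum_univ_three]
    simp only [Matrix.of_apply, Matrix.cons_val_zero, Matrix.cons_val_one, Matrix.cons_val,
      Matrix.cons_val_two, Matrix.head_cons, Matrix.tail_cons, mul_neg, neg_mul, mul_zero]
    module
  rw [e, mCas, smul_smul, ← neg_smul, map_zsmul]
  have : ts N 1 = (N : ℂ) := by
    show Matrix.trace (1 : Matrix (Fin N) (Fin N) ℂ) = _
    rw [Matrix.trace_one]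
    simp
  rw [this]
  simp
  ring

theorem tr_s : ∀ n : ℕ, ts N (Matrix.trace (Om (Xs N) ^ n)) =
    ((N : ℂ) + 2) * ((N : ℂ) - 1) ^ n + N * (-2) ^ n + ((N : ℂ) - 2) * (-((N : ℂ) + 1)) ^ n
  | 0 => by rw [tr_s0]; ring
  | 1 => by rw [tr_s1]; ring
  | 2 => by rw [tr_s2]; ring
  | n + 3 => by
    have h0 := tr_s n
    have h1 := tr_s (n + 1)
    have h2 := tr_s (n + 2)
    have hc := cube (mX N) (mY N) (mZ N) (1 - (N : ℤ) ^ 2) (mXY N) (mYZ N) (mZX N) (mCas N)
    have e : Om (Xs N) ^ (n + 3) = (-4 : ℤ) • Om (Xs N) ^ (n + 2) +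
        (-(4 + (1 - (N : ℤ) ^ 2))) • Om (Xs N) ^ (n + 1) +
        (-(2 * (1 - (N : ℤ) ^ 2))) • Om (Xs N) ^ n := by
      have : Om (Xs N) ^ (n + 3) = Om (Xs N) ^ n * Om (Xs N) ^ 3 := pow_add _ _ _
      rw [this]
      unfold Xs at *
      rw [hc, mul_add, mul_add, mul_smul_comm, mul_smul_comm, mul_smul_comm, mul_one, ← pow_add,
        ← pow_succ]
    rw [e, Matrix.trace_add, Matrix.trace_add, Matrix.trace_smul, Matrix.trace_smul,
      Matrix.trace_smul, map_add, map_add, map_zsmul, map_zsmul, map_zsmul, h0, h1, h2]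
    simp only [zsmul_eq_mul]
    push_cast
    ring

end mats

end Pool.Agent.Helper1.JD
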