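import Pool.Agent.Helper1.JD.Spin2

namespace Pool.Agent.Helper1.JD

open Finset

section bounds
variable {N : ℕ}

/-- row sums bounded by `K` -/
def Bd (K : ℝ) (M : Matrix (Fin N) (Fin N) ℂ) : Prop := ∀ i, ∑ j, ‖M i j‖ ≤ K

theorem Bd_one : Bd 1 (1 : Matrix (Fin N) (Fin N) ℂ) := by
  intro i
  rw [Finset.sum_eq_single i]
  · simp
  · intro j _ hj
    rw [Matrix.one_apply_ne hj.symm, norm_zero]
  · simp

theorem Bd_mul {K K' : ℝ} {M M' : Matrix (Fin N) (Fin N) ℂ} (h : Bd K M) (h' : Bd K' M')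
    (hK' : 0 ≤ K') : Bd (K * K') (M * M') := by
  intro i
  calc ∑ j, ‖(M * M') i j‖ ≤ ∑ j, ∑ k, ‖M i k‖ * ‖M' k j‖ := by
        refine Finset.sum_le_sum fun j _ => ?_
        rw [Matrix.mul_apply]
        refine (norm_sum_le _ _).trans ?_
        refine Finset.sum_le_sum fun k _ => ?_
        rw [norm_mul]
    _ = ∑ k, ‖M i k‖ * ∑ j, ‖M' k j‖ := by
        rw [Finset.sum_comm]
        refine Finset.sum_congr rfl fun k _ => ?_
        rw [Finset.mul_sum]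
    _ ≤ ∑ k, ‖M i k‖ * K' := by
        refine Finset.sum_le_sum fun k _ => ?_
        exact mul_le_mul_of_nonneg_left (h' k) (norm_nonneg _)
    _ = (∑ k, ‖M i k‖) * K' := by rw [Finset.sum_mul]
    _ ≤ K * K' := mul_le_mul_of_nonneg_right (h i) hK'

theorem Bd_add {K K' : ℝ} {M M' : Matrix (Fin N) (Fin N) ℂ} (h : Bd K M) (h' : Bd K' M') :
    Bd (K + K') (M + M') := by
  intro i
  calc ∑ j, ‖(M + M') i j‖ ≤ ∑ j, (‖M i j‖ + ‖M' i j‖) :=
        Finset.sum_le_sum fun j _ => norm_add_le _ _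
    _ = ∑ j, ‖M i j‖ + ∑ j, ‖M' i j‖ := Finset.sum_add_distrib
    _ ≤ K + K' := add_le_add (h i) (h' i)

theorem Bd_sub {K K' : ℝ} {M M' : Matrix (Fin N) (Fin N) ℂ} (h : Bd K M) (h' : Bd K' M') :
    Bd (K + K') (M - M') := by
  intro i
  calc ∑ j, ‖(M - M') i j‖ ≤ ∑ j, (‖M i j‖ + ‖M' i j‖) :=
        Finset.sum_le_sum fun j _ => norm_sub_le _ _
    _ = ∑ j, ‖M i j‖ + ∑ j, ‖M' i j‖ := Finset.sum_add_distrib
    _ ≤ K + K' := add_le_add (h i) (h' i)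

theorem Bd_smulI {K : ℝ} {M : Matrix (Fin N) (Fin N) ℂ} (h : Bd K M) :
    Bd K ((-Complex.I) • M) := by
  intro i
  have : ∀ j, ‖((-Complex.I) • M) i j‖ = ‖M i j‖ := by
    intro j
    rw [Matrix.smul_apply, norm_smul]
    simp
  simp only [this]
  exact h i

theorem Bd_mono {K K' : ℝ} {M : Matrix (Fin N) (Fin N) ℂ} (h : Bd K M) (hK : K ≤ K') :
    Bd K' M := fun i => (h i).trans hK

theorem sum_single_le {f : Fin N → ℂ} {K : ℝ} (hK : 0 ≤ K) (h1 : ∀ j, ‖f j‖ ≤ K)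
    (h2 : ∀ j j', f j ≠ 0 → f j' ≠ 0 → j = j') : ∑ j, ‖f j‖ ≤ K := by
  by_cases h : ∃ j0, f j0 ≠ 0
  · obtain ⟨j0, hj0⟩ := h
    rw [Finset.sum_eq_single j0]
    · exact h1 j0
    · intro j _ hj
      by_contra hne
      exact hj (h2 j j0 (fun h0 => hne (by rw [h0, norm_zero])) hj0)
    · simp
  · push Not at h
    simp [h, hK]

theorem Bd_E : Bd (N : ℝ) (mE N) := by
  intro i
  apply sum_single_le (Nat.cast_nonneg N)
  · intro j
    unfold mE
    split_ifs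
    · rw [Complex.norm_natCast]
      exact_mod_cast j.2.le
    · rw [norm_zero]; exact Nat.cast_nonneg N
  · intro j j' h h'
    unfold mE at h h'
    have a : (i : ℕ) + 1 = j := by by_contra h0; exact h (if_neg h0)
    have b : (i : ℕ) + 1 = j' := by by_contra h0; exact h' (if_neg h0)
    exact Fin.ext (by omega)

theorem Bd_F : Bd (N : ℝ) (mF N) := by
  intro i
  apply sum_single_le (Nat.cast_nonneg N)
  · intro j
    unfold mF
    split_ifs
    · have e : ((N : ℂ) - 1 - ((j : ℕ) : ℂ)) = (((N : ℝ) - 1 - ((j : ℕ) : ℝ) : ℝ) : ℂ) := by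
        push_cast; rfl
      rw [e, Complex.norm_real, Real.norm_eq_abs, abs_le]
      have : ((j : ℕ) : ℝ) + 1 ≤ N := by exact_mod_cast j.2
      have : (0 : ℝ) ≤ ((j : ℕ) : ℝ) := Nat.cast_nonneg _
      constructor <;> linarith
    · rw [norm_zero]; exact Nat.cast_nonneg N
  · intro j j' h h'
    unfold mF at h h'
    have a : (j : ℕ) + 1 = i := by by_contra h0; exact h (if_neg h0)
    have b : (j' : ℕ) + 1 = i := by by_contra h0; exact h' (if_neg h0)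
    exact Fin.ext (by omega)

theorem Bd_H : Bd (N : ℝ) (mH N) := by
  intro i
  apply sum_single_le (Nat.cast_nonneg N)
  · intro j
    unfold mH
    by_cases hij : i = j
    · subst hij
      rw [Matrix.diagonal_apply_eq]
      have e : ((N : ℂ) - 1 - 2 * ((i : ℕ) : ℂ)) = (((N : ℝ) - 1 - 2 * ((i : ℕ) : ℝ) : ℝ) : ℂ) := by
        push_cast; rfl
      rw [e, Complex.norm_real, Real.norm_eq_abs, abs_le]
      have : ((i : ℕ) : ℝ) + 1 ≤ N := by exact_mod_cast i.2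
      have : (0 : ℝ) ≤ ((i : ℕ) : ℝ) := Nat.cast_nonneg _
      constructor <;> linarith
    · rw [Matrix.diagonal_apply_ne _ hij, norm_zero]
      exact Nat.cast_nonneg N
  · intro j j' h h'
    unfold mH at h h'
    have a : i = j := by by_contra h0; exact h (Matrix.diagonal_apply_ne _ h0)
    have b : i = j' := by by_contra h0; exact h' (Matrix.diagonal_apply_ne _ h0)
    rw [← a, ← b]

theorem Bd_X (a : Fin 3) : Bd (2 * (N : ℝ)) (Xs N a) := by
  have hN : (0 : ℝ) ≤ N := Nat.cast_nonneg N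
  fin_cases a
  · show Bd (2 * (N : ℝ)) (mX N)
    have := Bd_smulI (Bd_add (Bd_E (N := N)) (Bd_F (N := N)))
    rw [two_mul]; exact this
  · show Bd (2 * (N : ℝ)) (mY N)
    rw [two_mul]
    exact Bd_sub (Bd_F (N := N)) (Bd_E (N := N))
  · show Bd (2 * (N : ℝ)) (mZ N)
    exact Bd_mono (Bd_smulI (Bd_H (N := N))) (by linarith)

theorem Bd_list {K : ℝ} (hK : 0 ≤ K) : ∀ L : List (Matrix (Fin N) (Fin N) ℂ),
    (∀ M ∈ L, Bd K M) → Bd (K ^ L.length) L.prod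
  | [], _ => by simpa using Bd_one
  | M :: L, h => by
    rw [List.prod_cons, List.length_cons, pow_succ']
    exact Bd_mul (h M (by simp)) (Bd_list hK L fun M' hM' => h M' (by simp [hM']))
      (pow_nonneg hK _)

theorem norm_trace_le {K : ℝ} {M : Matrix (Fin N) (Fin N) ℂ} (h : Bd K M) :
    ‖ts N M‖ ≤ N * K := by
  show ‖Matrix.trace M‖ ≤ _
  unfold Matrix.trace
  calc ‖∑ i, Matrix.diag M i‖ ≤ ∑ i, ‖Matrix.diag M i‖ := norm_sum_le _ _
    _ ≤ ∑ _i : Fin N, K := by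
        refine Finset.sum_le_sum fun i _ => ?_
        exact (Finset.single_le_sum (f := fun j => ‖M i j‖) (fun j _ => norm_nonneg _)
          (mem_univ i)).trans (h i)
    _ = N * K := by simp

theorem eps_abs : ∀ a b c : Fin 3, |eps a b c| ≤ 1 := by decide

theorem vprod_abs {t l : ℕ} (c : Half t l → Fin 3) : |vprod c| ≤ 1 := by
  unfold vprod
  rw [Finset.abs_prod]
  exact Finset.prod_le_one (fun i _ => abs_nonneg _) (fun i _ => eps_abs _ _ _)

theorem term_norm {t l : ℕ} (c : Half t l → Fin 3) :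
    ‖term (Xs N) (ts N) c‖ ≤ N * (2 * (N : ℝ)) ^ l := by
  unfold term
  have h1 : ‖legval (Xs N) (ts N) c‖ ≤ N * (2 * (N : ℝ)) ^ l := by
    unfold legval
    have := Bd_list (N := N) (K := 2 * (N : ℝ)) (by positivity)
      (List.ofFn fun j : Fin l => Xs N (c (Sum.inr j))) (by
        intro M hM
        rw [List.mem_ofFn] at hM
        obtain ⟨j, rfl⟩ := hM
        exact Bd_X _)
    rw [List.length_ofFn] at this
    exact norm_trace_le this
  rw [zsmul_eq_mul, norm_mul]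
  have h2 : ‖((vprod c : ℤ) : ℂ)‖ ≤ 1 := by
    rw [Complex.norm_intCast]
    exact_mod_cast vprod_abs c
  calc ‖((vprod c : ℤ) : ℂ)‖ * ‖legval (Xs N) (ts N) c‖
      ≤ 1 * (N * (2 * (N : ℝ)) ^ l) := mul_le_mul h2 h1 (norm_nonneg _) zero_le_one
    _ = _ := one_mul _

theorem wt_norm {t l : ℕ} (D : Diag t l) :
    ‖wt (Xs N) (ts N) D‖ ≤
      ((2 : ℝ) ^ t * Fintype.card (Half t l → Fin 3) * 2 ^ l) * (N : ℝ) ^ (l + 1) := by
  unfold wt csum
  have h1 : ‖∑ c ∈ col D.ι, term (Xs N) (ts N) c‖ ≤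
      Fintype.card (Half t l → Fin 3) * (N * (2 * (N : ℝ)) ^ l) := by
    calc ‖∑ c ∈ col D.ι, term (Xs N) (ts N) c‖ ≤ ∑ c ∈ col D.ι, ‖term (Xs N) (ts N) c‖ :=
          norm_sum_le _ _
      _ ≤ ∑ _c ∈ col D.ι, N * (2 * (N : ℝ)) ^ l := Finset.sum_le_sum fun c _ => term_norm c
      _ ≤ ∑ _c : Half t l → Fin 3, N * (2 * (N : ℝ)) ^ l :=
          Finset.sum_le_sum_of_subset_of_nonneg (Finset.subset_univ _)
            (fun c _ _ => by positivity)
      _ = _ := by simp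
  rw [zsmul_eq_mul, norm_mul]
  have h2 : ‖(((2 : ℤ) ^ t : ℤ) : ℂ)‖ = 2 ^ t := by
    push_cast
    rw [norm_pow]
    simp
  rw [h2]
  calc (2 : ℝ) ^ t * ‖∑ c ∈ col D.ι, term (Xs N) (ts N) c‖
      ≤ 2 ^ t * (Fintype.card (Half t l → Fin 3) * (N * (2 * (N : ℝ)) ^ l)) :=
        mul_le_mul_of_nonneg_left h1 (by positivity)
    _ = _ := by rw [mul_pow]; ring

end bounds

/-- The constant of the bound. -/
noncomputable def Kc (t l : ℕ) : ℝ := (2 : ℝ) ^ t * Fintype.card (Half t l → Fin 3) * 2 ^ l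

theorem Kc_nonneg (t l : ℕ) : 0 ≤ Kc t l := by unfold Kc; positivity

theorem exists_spin (N : ℕ) : ∃ W : A →+ ℂ,
    (∀ (t l : ℕ) (D : Diag t l), ‖W (cls D)‖ ≤ Kc t l * (N : ℝ) ^ (l + 1)) ∧
    ∀ n, W (cls (wheel n)) = 2 ^ (n + 1) * (((N : ℂ) + 2) * ((N : ℂ) - 1) ^ (n + 1) +
      N * (-2) ^ (n + 1) + ((N : ℂ) - 2) * (-((N : ℂ) + 1)) ^ (n + 1)) := by
  obtain ⟨W, hW⟩ := exists_weight (Xs N) (ts N) (fun b hb => by simpa using hb) (ts_mul N) (Xs_rel N)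
  refine ⟨W, ?_, ?_⟩
  · intro t l D
    rw [hW]
    exact wt_norm D
  · intro n
    rw [hW, wt_wheel, tr_s, zsmul_eq_mul]
    push_cast
    rfl

theorem twoLoop_bound (d : ℕ) {f : A} (hf : f ∈ twoLoop d) : ∃ K : ℝ, 0 ≤ K ∧
    ∀ N : ℕ, 1 ≤ N → ∀ W : A →+ ℂ,
    (∀ (t l : ℕ) (D : Diag t l), ‖W (cls D)‖ ≤ Kc t l * (N : ℝ) ^ (l + 1)) →
    ‖W f‖ ≤ K * (N : ℝ) ^ d := by
  unfold twoLoop at hf
  induction hf using AddSubgroup.closure_induction with
  | mem x hx =>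
    obtain ⟨t, l, D, h1, h2, h3, rfl⟩ := hx
    refine ⟨Kc t l, Kc_nonneg t l, fun N hN W hW => (hW t l D).trans ?_⟩
    refine mul_le_mul_of_nonneg_left ?_ (Kc_nonneg t l)
    exact pow_le_pow_right₀ (by exact_mod_cast hN) (by omega)
  | zero => exact ⟨0, le_rfl, fun N hN W hW => by simp⟩
  | add x y _ _ hx hy =>
    obtain ⟨K, hK0, hK⟩ := hx
    obtain ⟨K', hK0', hK'⟩ := hy
    refine ⟨K + K', add_nonneg hK0 hK0', fun N hN W hW => ?_⟩
    rw [map_add, add_mul]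
    exact (norm_add_le _ _).trans (add_le_add (hK N hN W hW) (hK' N hN W hW))
  | neg x _ hx =>
    obtain ⟨K, hK0, hK⟩ := hx
    refine ⟨K, hK0, fun N hN W hW => ?_⟩
    rw [map_neg, norm_neg]
    exact hK N hN W hW

/-- For even `d` no multiple of the wheel lies in the span of the diagrams with two loops. -/
theorem wheel_even (n : ℕ) (hn : Even (n + 1)) (c : ℤ)
    (hc : c • cls (wheel n) ∈ twoLoop (n + 1)) : c = 0 := by
  by_contra hc0
  obtain ⟨K, hK0, hK⟩ := twoLoop_bound _ hc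
  have hc1 : (1 : ℝ) ≤ |(c : ℝ)| := by
    have : (1 : ℤ) ≤ |c| := Int.one_le_abs hc0
    exact_mod_cast this
  have main : ∀ N : ℕ, 2 ≤ N → (N : ℝ) - 2 ≤ K := by
    intro N hN
    obtain ⟨W, hW1, hW2⟩ := exists_spin N
    have h := hK N (by omega) W hW1
    rw [map_zsmul, hW2, zsmul_eq_mul, norm_mul, norm_mul] at h
    have e1 : ‖((2 : ℂ) ^ (n + 1))‖ = 2 ^ (n + 1) := by rw [norm_pow]; simp
    have e2 : (((N : ℂ) + 2) * ((N : ℂ) - 1) ^ (n + 1) +
      N * (-2) ^ (n + 1) + ((N : ℂ) - 2) * (-((N : ℂ) + 1)) ^ (n + 1)) =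
      (((((N : ℝ) + 2) * ((N : ℝ) - 1) ^ (n + 1) +
      N * 2 ^ (n + 1) + ((N : ℝ) - 2) * ((N : ℝ) + 1) ^ (n + 1) : ℝ)) : ℂ) := by
      rw [hn.neg_pow, hn.neg_pow]
      push_cast
      rfl
    have hN2 : (2 : ℝ) ≤ N := by exact_mod_cast hN
    have hpos : (0 : ℝ) < (N : ℝ) ^ (n + 1) := by positivity
    have e3 : ((N : ℝ) - 2) * (N : ℝ) ^ (n + 1) ≤ (((N : ℝ) + 2) * ((N : ℝ) - 1) ^ (n + 1) +
      N * 2 ^ (n + 1) + ((N : ℝ) - 2) * ((N : ℝ) + 1) ^ (n + 1) : ℝ) := by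
      have a1 : 0 ≤ ((N : ℝ) + 2) * ((N : ℝ) - 1) ^ (n + 1) :=
        mul_nonneg (by linarith) (pow_nonneg (by linarith) _)
      have a2 : (0 : ℝ) ≤ N * 2 ^ (n + 1) := by positivity
      have a3 : ((N : ℝ) - 2) * (N : ℝ) ^ (n + 1) ≤ ((N : ℝ) - 2) * ((N : ℝ) + 1) ^ (n + 1) :=
        mul_le_mul_of_nonneg_left (pow_le_pow_left₀ (by linarith) (by linarith) _) (by linarith)
      linarith
    rw [e1, e2, Complex.norm_real, Complex.norm_intCast, Real.norm_eq_abs] at h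
    have e4 : ((N : ℝ) - 2) * (N : ℝ) ^ (n + 1) ≤ |(((N : ℝ) + 2) * ((N : ℝ) - 1) ^ (n + 1) +
      N * 2 ^ (n + 1) + ((N : ℝ) - 2) * ((N : ℝ) + 1) ^ (n + 1) : ℝ)| := e3.trans (le_abs_self _)
    have e5 : (1 : ℝ) ≤ 2 ^ (n + 1) := one_le_pow₀ (by norm_num)
    have e6 : (0 : ℝ) ≤ ((N : ℝ) - 2) * (N : ℝ) ^ (n + 1) :=
      mul_nonneg (by linarith) hpos.le
    have e7 : 1 * (1 * (((N : ℝ) - 2) * (N : ℝ) ^ (n + 1))) ≤ K * (N : ℝ) ^ (n + 1) := by
      refine le_trans ?_ h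
      refine mul_le_mul hc1 (mul_le_mul e5 e4 e6 (by positivity)) (by rw [one_mul]; exact e6)
        (by positivity)
    rw [one_mul, one_mul] at e7
    exact le_of_mul_le_mul_right e7 hpos
  obtain ⟨M, hM⟩ := exists_nat_gt (K + 2)
  have h2 : 2 ≤ max M 2 := le_max_right _ _
  have := main (max M 2) h2
  have h3 : (M : ℝ) ≤ ((max M 2 : ℕ) : ℝ) := by exact_mod_cast le_max_left M 2
  linarith

end Pool.Agent.Helper1.JD
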