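import Pool.Agent.Helper1.JD.Stu

namespace Pool.Agent.Helper1.JD

open Finset

section
variable {t l : ℕ}

/-- connected fixed point free involutions, with at least one leg -/
def Valid (ι : Equiv.Perm (Half t l)) : Prop :=
  (∀ h, ι (ι h) = h) ∧ (∀ h, ι h ≠ h) ∧
    (∀ P : Set (Half t l), Closed ι P → P.Nonempty → P = Set.univ) ∧ 0 < l

/-- the diagram of a valid involution -/
def Valid.diag {ι : Equiv.Perm (Half t l)} (h : Valid ι) : Diag t l where
  ι := ι
  invol := h.1
  nofix := h.2.1
  legs P hP hne := ⟨⟨0, h.2.2.2⟩, by rw [h.2.2.1 P hP hne]; trivial⟩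

theorem Valid.conn {ι : Equiv.Perm (Half t l)} (h : Valid ι) : h.diag.Connected := h.2.2.1

open Classical in
/-- the class of an involution -/
noncomputable def cl (ι : Equiv.Perm (Half t l)) : A := if h : Valid ι then cls h.diag else 0

theorem cl_valid {ι : Equiv.Perm (Half t l)} (h : Valid ι) : cl ι = cls h.diag := by
  unfold cl; rw [dif_pos h]

theorem valid_of (D : Diag t l) (h : D.Connected) (hl : 0 < l) : Valid D.ι :=
  ⟨D.invol, D.nofix, h, hl⟩

theorem cls_eq_cl (D : Diag t l) (h : D.Connected) (hl : 0 < l) : cls D = cl D.ι := by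
  rw [cl_valid (valid_of D h hl)]
  rfl

/-- conjugation -/
def cj (g ι : Equiv.Perm (Half t l)) : Equiv.Perm (Half t l) := g * ι * g⁻¹

theorem cj_mul (g h ι : Equiv.Perm (Half t l)) : cj (g * h) ι = cj g (cj h ι) := by
  unfold cj; group

theorem cj_one (ι : Equiv.Perm (Half t l)) : cj 1 ι = ι := by unfold cj; group

theorem cj_inv (g ι : Equiv.Perm (Half t l)) : cj g (cj g⁻¹ ι) = ι := by unfold cj; group

theorem cj_apply (g ι : Equiv.Perm (Half t l)) (x : Half t l) : cj g ι (g x) = g (ι x) := by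
  unfold cj; simp

theorem cj_eq_of {g ι ι' : Equiv.Perm (Half t l)} (h : ∀ x, ι' (g x) = g (ι x)) :
    cj g ι = ι' := by
  ext x
  obtain ⟨y, rfl⟩ := g.surjective x
  rw [cj_apply, h]

theorem rel_cl {x : Free} (h : Rel x) : (QuotientAddGroup.mk x : A) = 0 := by
  rw [QuotientAddGroup.eq_zero_iff]
  exact AddSubgroup.subset_closure h

/-- validity is preserved if closed sets can be pulled back -/
theorem valid_cj {g ι : Equiv.Perm (Half t l)} (h : Valid ι)
    (hg : ∀ P : Set (Half t l), Closed (cj g ι) P → ∀ (i : Fin t) (k k' : Fin 3),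
      g (Sum.inl (i, k)) ∈ P → g (Sum.inl (i, k')) ∈ P) : Valid (cj g ι) := by
  refine ⟨?_, ?_, ?_, h.2.2.2⟩
  · intro x
    obtain ⟨y, rfl⟩ := g.surjective x
    rw [cj_apply, cj_apply, h.1]
  · intro x
    obtain ⟨y, rfl⟩ := g.surjective x
    rw [cj_apply]
    exact fun e => h.2.1 y (g.injective e)
  · intro P hP hne
    have hQ : Closed ι (g ⁻¹' P) := by
      constructor
      · intro x hx
        show g (ι x) ∈ P
        rw [← cj_apply]
        exact hP.1 _ hx
      · intro i k k' hk
        exact hg P hP i k k' hk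
    have hQne : (g ⁻¹' P).Nonempty := by
      obtain ⟨x, hx⟩ := hne
      exact ⟨g.symm x, by simpa using hx⟩
    have := h.2.2.1 _ hQ hQne
    apply Set.eq_univ_of_forall
    intro x
    obtain ⟨y, rfl⟩ := g.surjective x
    have : y ∈ g ⁻¹' P := by rw [this]; trivial
    exact this

/-- sign moves -/
def SM (g : Equiv.Perm (Half t l)) (s : ℤ) : Prop :=
  ∀ ι, Valid ι → Valid (cj g ι) ∧ cl (cj g ι) = s • cl ι

theorem SM.mul {g g' : Equiv.Perm (Half t l)} {s s' : ℤ} (h : SM g s) (h' : SM g' s') :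
    SM (g * g') (s * s') := by
  intro ι hι
  rw [cj_mul]
  obtain ⟨h1, h2⟩ := h' ι hι
  obtain ⟨h3, h4⟩ := h _ h1
  refine ⟨h3, ?_⟩
  rw [h4, h2, smul_smul]

theorem SM.one : SM (1 : Equiv.Perm (Half t l)) 1 := by
  intro ι hι
  rw [cj_one]
  exact ⟨hι, (one_smul _ _).symm⟩

theorem valid_vperm (s : Equiv.Perm (Fin t)) {ι : Equiv.Perm (Half t l)} (h : Valid ι) :
    Valid (cj (vperm s) ι) := by
  apply valid_cj h
  intro P hP i k k' hk
  exact hP.2 (s i) k k' hk

theorem SM_vperm (s : Equiv.Perm (Fin t)) : SM (vperm s : Equiv.Perm (Half t l)) 1 := by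
  intro ι hι
  refine ⟨valid_vperm s hι, ?_⟩
  rw [cl_valid (valid_vperm s hι), cl_valid hι, one_smul]
  have := rel_cl (Rel.vert s hι.diag (valid_vperm s hι).diag rfl)
  rw [QuotientAddGroup.mk_sub, sub_eq_zero] at this
  exact this

theorem valid_lperm (s : Equiv.Perm (Fin l)) {ι : Equiv.Perm (Half t l)} (h : Valid ι) :
    Valid (cj (lperm s) ι) := by
  apply valid_cj h
  intro P hP i k k' hk
  exact hP.2 i k k' hk

theorem cl_rot {ι : Equiv.Perm (Half t l)} (h : Valid ι) :
    cl (cj (lperm (finRotate l)) ι) = cl ι := by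
  rw [cl_valid (valid_lperm _ h), cl_valid h]
  have := rel_cl (Rel.rot h.diag (valid_lperm _ h).diag rfl)
  rw [QuotientAddGroup.mk_sub, sub_eq_zero] at this
  exact this

theorem swap_slot (i : Fin t) (k k' : Fin 3) (k'' : Fin 3) :
    (Equiv.swap (Sum.inl (i, k)) (Sum.inl (i, k')) : Equiv.Perm (Half t l)) (Sum.inl (i, k'')) =
      Sum.inl (i, Equiv.swap k k' k'') := by
  simp only [Equiv.swap_apply_def, Sum.inl.injEq, Prod.mk.injEq, true_and]
  split_ifs <;> rfl

theorem swap_slot_ne {i j : Fin t} (hj : j ≠ i) (k k' : Fin 3) (k'' : Fin 3) :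
    (Equiv.swap (Sum.inl (i, k)) (Sum.inl (i, k')) : Equiv.Perm (Half t l)) (Sum.inl (j, k'')) =
      Sum.inl (j, k'') := by
  apply Equiv.swap_apply_of_ne_of_ne <;> simp [hj]

theorem swap_slot_inr (i : Fin t) (k k' : Fin 3) (j : Fin l) :
    (Equiv.swap (Sum.inl (i, k)) (Sum.inl (i, k')) : Equiv.Perm (Half t l)) (Sum.inr j) =
      Sum.inr j := by
  apply Equiv.swap_apply_of_ne_of_ne <;> simp

theorem SM_swap (i : Fin t) {k k' : Fin 3} (hk : k ≠ k') :
    SM (Equiv.swap (Sum.inl (i, k)) (Sum.inl (i, k')) : Equiv.Perm (Half t l)) (-1) := by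
  intro ι hι
  have hv : Valid (cj (Equiv.swap (Sum.inl (i, k)) (Sum.inl (i, k'))) ι) := by
    apply valid_cj hι
    intro P hP j m m' hm
    by_cases hj : j = i
    · subst hj
      rw [swap_slot] at hm ⊢
      exact hP.2 _ _ _ hm
    · rw [swap_slot_ne hj] at hm ⊢
      exact hP.2 _ _ _ hm
  refine ⟨hv, ?_⟩
  rw [cl_valid hv, cl_valid hι, neg_one_smul]
  have := rel_cl (Rel.as i k k' hk hι.diag hv.diag rfl)
  rw [QuotientAddGroup.mk_add] at this
  exact eq_neg_of_add_eq_zero_left this

/-- permutation of the slots of one vertex -/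
def sperm (i : Fin t) (r : Equiv.Perm (Fin 3)) : Equiv.Perm (Half t l) where
  toFun
    | Sum.inl (j, k) => if j = i then Sum.inl (j, r k) else Sum.inl (j, k)
    | Sum.inr j => Sum.inr j
  invFun
    | Sum.inl (j, k) => if j = i then Sum.inl (j, r⁻¹ k) else Sum.inl (j, k)
    | Sum.inr j => Sum.inr j
  left_inv := by
    rintro (⟨j, k⟩ | j)
    · by_cases h : j = i <;> simp [h]
    · rfl
  right_inv := by
    rintro (⟨j, k⟩ | j)
    · by_cases h : j = i <;> simp [h]
    · rfl

theorem sperm_self (i : Fin t) (r : Equiv.Perm (Fin 3)) (k : Fin 3) :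
    (sperm i r : Equiv.Perm (Half t l)) (Sum.inl (i, k)) = Sum.inl (i, r k) := if_pos rfl

theorem sperm_ne {i j : Fin t} (h : j ≠ i) (r : Equiv.Perm (Fin 3)) (k : Fin 3) :
    (sperm i r : Equiv.Perm (Half t l)) (Sum.inl (j, k)) = Sum.inl (j, k) := if_neg h

theorem sperm_inr (i : Fin t) (r : Equiv.Perm (Fin 3)) (j : Fin l) :
    (sperm i r : Equiv.Perm (Half t l)) (Sum.inr j) = Sum.inr j := rfl

theorem sperm_mul (i : Fin t) (r r' : Equiv.Perm (Fin 3)) :
    (sperm i (r * r') : Equiv.Perm (Half t l)) = sperm i r * sperm i r' := by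
  ext h
  rcases h with ⟨j, k⟩ | j
  · by_cases h : j = i
    · subst h
      rw [Equiv.Perm.mul_apply, sperm_self, sperm_self, sperm_self, Equiv.Perm.mul_apply]
    · rw [Equiv.Perm.mul_apply, sperm_ne h, sperm_ne h, sperm_ne h]
  · rfl

theorem sperm_swap (i : Fin t) (k k' : Fin 3) :
    (sperm i (Equiv.swap k k') : Equiv.Perm (Half t l)) =
      Equiv.swap (Sum.inl (i, k)) (Sum.inl (i, k')) := by
  ext h
  rcases h with ⟨j, m⟩ | j
  · by_cases h : j = i
    · subst h
      rw [sperm_self, swap_slot]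
    · rw [sperm_ne h, swap_slot_ne h]
  · rw [sperm_inr, swap_slot_inr]

theorem SM_sperm (i : Fin t) (r : Equiv.Perm (Fin 3)) :
    SM (sperm i r : Equiv.Perm (Half t l)) (Equiv.Perm.sign r : ℤ) := by
  induction r using Equiv.Perm.swap_induction_on with
  | one =>
    have : (sperm i 1 : Equiv.Perm (Half t l)) = 1 := by
      ext h
      rcases h with ⟨j, m⟩ | j
      · by_cases h : j = i
        · subst h; rw [sperm_self]; rfl
        · rw [sperm_ne h]; rfl
      · rfl
    rw [this]
    simpa using SM.one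
  | swap_mul f x y hxy ih =>
    rw [sperm_mul, sperm_swap, map_mul, Equiv.Perm.sign_swap hxy]
    have := (SM_swap (l := l) i hxy).mul ih
    simpa using this

/-- permutation of all slots -/
def slots (r : Fin t → Equiv.Perm (Fin 3)) : Equiv.Perm (Half t l) where
  toFun
    | Sum.inl (j, k) => Sum.inl (j, r j k)
    | Sum.inr j => Sum.inr j
  invFun
    | Sum.inl (j, k) => Sum.inl (j, (r j)⁻¹ k)
    | Sum.inr j => Sum.inr j
  left_inv := by
    rintro (⟨j, k⟩ | j) <;> simp
  right_inv := by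
    rintro (⟨j, k⟩ | j) <;> simp

theorem SM_slots_aux (r : Fin t → Equiv.Perm (Fin 3)) (s : Finset (Fin t)) :
    SM (slots (fun i => if i ∈ s then r i else 1) : Equiv.Perm (Half t l))
      (∏ i ∈ s, (Equiv.Perm.sign (r i) : ℤ)) := by
  induction s using Finset.induction_on with
  | empty =>
    have : (slots (fun i => if i ∈ (∅ : Finset (Fin t)) then r i else 1) :
        Equiv.Perm (Half t l)) = 1 := by
      ext h
      rcases h with ⟨j, m⟩ | j <;> simp [slots]
    rw [this]
    simpa using SM.one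
  | insert a s ha ih =>
    have : (slots (fun i => if i ∈ insert a s then r i else 1) : Equiv.Perm (Half t l)) =
        sperm a (r a) * slots (fun i => if i ∈ s then r i else 1) := by
      ext h
      rcases h with ⟨j, m⟩ | j
      · rw [Equiv.Perm.mul_apply]
        show Sum.inl (j, (if j ∈ insert a s then r j else 1) m) =
          sperm a (r a) (Sum.inl (j, (if j ∈ s then r j else 1) m))
        by_cases h : j = a
        · subst h
          rw [sperm_self, if_pos (Finset.mem_insert_self _ _), if_neg ha]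
          rfl
        · rw [sperm_ne h]
          simp [h]
      · rfl
    rw [this, Finset.prod_insert ha]
    exact (SM_sperm a (r a)).mul ih

theorem SM_slots (r : Fin t → Equiv.Perm (Fin 3)) :
    SM (slots r : Equiv.Perm (Half t l)) (∏ i, (Equiv.Perm.sign (r i) : ℤ)) := by
  have := SM_slots_aux (l := l) r univ
  simpa using this

end

end Pool.Agent.Helper1.JD
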