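import Pool.Agent.Helper1.JD.Str1

namespace Pool.Agent.Helper1.JD

open Finset

/-- span of the connected diagrams of degree `d` with at most `m` legs -/
def Kl (d m : ℕ) : AddSubgroup A :=
  AddSubgroup.closure
    {x | ∃ (t l : ℕ) (ι : Equiv.Perm (Half t l)), t + l = 2 * d ∧ l ≤ m ∧ Valid ι ∧ x = cl ι}

theorem Kl_mono {d m m' : ℕ} (h : m ≤ m') : Kl d m ≤ Kl d m' := by
  apply AddSubgroup.closure_mono
  rintro x ⟨t, l, ι, h1, h2, h3, h4⟩
  exact ⟨t, l, ι, h1, h2.trans h, h3, h4⟩

theorem mem_Kl {d m t l : ℕ} {ι : Equiv.Perm (Half t l)} (h : Valid ι) (h1 : t + l = 2 * d)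
    (h2 : l ≤ m) : cl ι ∈ Kl d m :=
  AddSubgroup.subset_closure ⟨t, l, ι, h1, h2, h, rfl⟩

section
variable {t l : ℕ}

/-- the involution of `S` -/
def sFun (ι : Half t (l + 2) → Half t (l + 2)) (h : Half (t + 1) (l + 1)) : Half (t + 1) (l + 1) :=
  match ret h with
  | some x => emb (ι x)
  | none => match h with
    | Sum.inl _ => Sum.inr (Fin.last l)
    | Sum.inr _ => Sum.inl (Fin.last t, 0)

theorem sFun_emb (ι : Half t (l + 2) → Half t (l + 2)) (h : Half t (l + 2)) :
    sFun ι (emb h) = emb (ι h) := by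
  unfold sFun; rw [ret_emb]

theorem sFun_inl (ι : Half t (l + 2) → Half t (l + 2)) :
    sFun ι (Sum.inl (Fin.last t, 0)) = Sum.inr (Fin.last l) := by
  unfold sFun; rw [ret_last0]

theorem sFun_inr (ι : Half t (l + 2) → Half t (l + 2)) :
    sFun ι (Sum.inr (Fin.last l)) = Sum.inl (Fin.last t, 0) := by
  unfold sFun; rw [ret_inr_last]

theorem sFun_invol {ι : Half t (l + 2) → Half t (l + 2)} (h : ∀ x, ι (ι x) = x) :
    Function.Involutive (sFun ι) := by
  intro x
  induction x using half_cases' with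
  | h1 x => rw [sFun_emb, sFun_emb, h]
  | h2 => rw [sFun_inl, sFun_inr]
  | h3 => rw [sFun_inr, sFun_inl]

theorem emb_ne_last (h : Half t (l + 2)) : emb h ≠ Sum.inr (Fin.last l) := by
  intro e
  have := congrArg ret e
  rw [ret_emb, ret_inr_last] at this
  cases this

theorem exists_S {ι : Equiv.Perm (Half t (l + 2))} (hι : Valid ι) :
    ∃ S : Equiv.Perm (Half (t + 1) (l + 1)), Valid S ∧ (∀ h, S (emb h) = emb (ι h)) ∧
      S (Sum.inl (Fin.last t, 0)) = Sum.inr (Fin.last l) := by
  refine ⟨(sFun_invol hι.1).toPerm, ⟨sFun_invol hι.1, ?_, ?_, Nat.succ_pos l⟩, sFun_emb ι,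
    sFun_inl ι⟩
  · intro x
    show sFun ι x ≠ x
    induction x using half_cases' with
    | h1 x => rw [sFun_emb]; exact fun e => hι.2.1 x (emb_injective e)
    | h2 => rw [sFun_inl]; simp
    | h3 => rw [sFun_inr]; simp
  · intro P hP hne
    have hP1 : ∀ h, h ∈ P → sFun ι h ∈ P := hP.1
    have hQ : Closed ι {h | emb h ∈ P} := by
      constructor
      · intro x hx
        show emb (ι x) ∈ P
        rw [← sFun_emb]
        exact hP1 _ hx
      · intro i k k' hk
        exact hP.2 i.castSucc k k' hk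
    have hQne : {h : Half t (l + 2) | emb h ∈ P}.Nonempty := by
      obtain ⟨x, hx⟩ := hne
      have h0 : Sum.inl (Fin.last t, (0 : Fin 3)) ∈ P → {h : Half t (l + 2) | emb h ∈ P}.Nonempty := by
        intro h0
        refine ⟨Sum.inr ⟨l, by omega⟩, ?_⟩
        show emb (Sum.inr ⟨l, by omega⟩) ∈ P
        rw [emb_l]
        exact hP.2 _ 0 1 h0
      induction x using half_cases' with
      | h1 x => exact ⟨x, hx⟩
      | h2 => exact h0 hx
      | h3 =>
        have := hP1 _ hx
        rw [sFun_inr] at this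
        exact h0 this
    have hall := hι.2.2.1 _ hQ hQne
    have hall' : ∀ h : Half t (l + 2), emb h ∈ P := by
      intro h
      have : h ∈ {h : Half t (l + 2) | emb h ∈ P} := by rw [hall]; trivial
      exact this
    have h1 : Sum.inl (Fin.last t, (0 : Fin 3)) ∈ P := by
      have := hall' (Sum.inr ⟨l, by omega⟩)
      rw [emb_l] at this
      exact hP.2 _ 1 0 this
    apply Set.eq_univ_of_forall
    intro x
    induction x using half_cases' with
    | h1 x => exact hall' x
    | h2 => exact h1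
    | h3 =>
      have := hP1 _ h1
      rw [sFun_inl] at this
      exact this

theorem lperm_mul (s s' : Equiv.Perm (Fin l)) :
    (lperm (s * s') : Equiv.Perm (Half t l)) = lperm s * lperm s' := by
  ext h
  rcases h with h | h <;> rfl

theorem lperm_one : (lperm 1 : Equiv.Perm (Half t l)) = 1 := by
  ext h
  rcases h with h | h <;> rfl

theorem cl_stu {d : ℕ} {ι : Equiv.Perm (Half t (l + 2))} (hι : Valid ι) (hd : t + (l + 2) = 2 * d) :
    cl (cj (lperm (Equiv.swap ⟨l, by omega⟩ ⟨l + 1, by omega⟩)) ι) - cl ι ∈ Kl d (l + 1) := by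
  obtain ⟨S, hS, hS1, hS2⟩ := exists_S hι
  have hU := valid_lperm (Equiv.swap (⟨l, by omega⟩ : Fin (l + 2)) ⟨l + 1, by omega⟩) hι
  have := rel_cl (Rel.stu hι.diag hU.diag hS.diag rfl hS1 hS2)
  rw [QuotientAddGroup.mk_sub, QuotientAddGroup.mk_sub] at this
  have e : cls hι.diag - cls hU.diag - cls hS.diag = 0 := this
  rw [← cl_valid hι, ← cl_valid hU, ← cl_valid hS, sub_eq_zero] at e
  rw [← neg_sub, e]
  exact neg_mem (mem_Kl hS (by omega) le_rfl)

/-- Permuting the legs changes a diagram by diagrams with fewer legs. -/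
theorem cl_lperm {d : ℕ} (s : Equiv.Perm (Fin l)) {ι : Equiv.Perm (Half t l)} (hι : Valid ι)
    (hd : t + l = 2 * d) : cl (cj (lperm s) ι) - cl ι ∈ Kl d (l - 1) := by
  match l, s, ι, hι, hd with
  | 0, s, ι, hι, hd => exact absurd hι.2.2.2 (lt_irrefl 0)
  | 1, s, ι, hι, hd =>
    have : s = 1 := Subsingleton.elim _ _
    rw [this, lperm_one, cj_one, sub_self]
    exact zero_mem _
  | l + 2, s, ι, hι, hd =>
    have htop := Equiv.Perm.closure_cycle_adjacent_swap (isCycle_finRotate (n := l))
      (support_finRotate (n := l)) (⟨l, by omega⟩ : Fin (l + 2))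
    have hrot : finRotate (l + 2) ⟨l, by omega⟩ = ⟨l + 1, by omega⟩ := by
      exact finRotate_of_lt (n := l + 1) (by omega)
    rw [hrot] at htop
    have hs : s ∈ Subgroup.closure
        {finRotate (l + 2), Equiv.swap (⟨l, by omega⟩ : Fin (l + 2)) ⟨l + 1, by omega⟩} := by
      rw [htop]; trivial
    show cl (cj (lperm s) ι) - cl ι ∈ Kl d (l + 1)
    induction hs using Subgroup.closure_induction generalizing ι with
    | mem x hx =>
      rcases hx with rfl | hx
      · rw [cl_rot hι, sub_self]; exact zero_mem _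
      · rw [Set.mem_singleton_iff] at hx
        subst hx
        exact cl_stu hι hd
    | one => rw [lperm_one, cj_one, sub_self]; exact zero_mem _
    | mul x y _ _ hx hy =>
      rw [lperm_mul, cj_mul]
      have h1 := hx _ (valid_lperm y hι)
      have h2 := hy _ hι
      have := add_mem h1 h2
      rw [sub_add_sub_cancel] at this
      exact this
    | inv x _ hx =>
      have h1 := hx _ (valid_lperm x⁻¹ hι)
      rw [← cj_mul, ← lperm_mul, mul_inv_cancel, lperm_one, cj_one] at h1
      rw [← neg_sub]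
      exact neg_mem h1

end

end Pool.Agent.Helper1.JD
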