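import Pool.Agent.Helper1.JD.Str2

namespace Pool.Agent.Helper1.JD

open Finset

section
variable {t l : ℕ}

/-- the move of the IHX relation at the edge of the slots `0` of `v` and `w` -/
def kap (v w : Fin t) : Equiv.Perm (Half t l) :=
  Equiv.swap (Sum.inl (v, 2)) (Sum.inl (w, 2)) * Equiv.swap (Sum.inl (v, 2)) (Sum.inl (w, 1))

variable {v w : Fin t}

theorem kap_v2 (h : v ≠ w) : (kap v w : Equiv.Perm (Half t l)) (Sum.inl (v, 2)) = Sum.inl (w, 1) := by
  unfold kap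
  rw [Equiv.Perm.mul_apply, Equiv.swap_apply_left, Equiv.swap_apply_of_ne_of_ne] <;>
    simp [h.symm]

theorem kap_w1 : (kap v w : Equiv.Perm (Half t l)) (Sum.inl (w, 1)) = Sum.inl (w, 2) := by
  unfold kap
  rw [Equiv.Perm.mul_apply, Equiv.swap_apply_right, Equiv.swap_apply_left]

theorem kap_w2 (h : v ≠ w) : (kap v w : Equiv.Perm (Half t l)) (Sum.inl (w, 2)) = Sum.inl (v, 2) := by
  unfold kap
  rw [Equiv.Perm.mul_apply, Equiv.swap_apply_of_ne_of_ne (a := Sum.inl (v, 2))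
    (b := Sum.inl (w, 1)), Equiv.swap_apply_right] <;> simp [h.symm]

theorem kap_ne {x : Half t l} (h1 : x ≠ Sum.inl (v, 2)) (h2 : x ≠ Sum.inl (w, 1))
    (h3 : x ≠ Sum.inl (w, 2)) : (kap v w : Equiv.Perm (Half t l)) x = x := by
  unfold kap
  rw [Equiv.Perm.mul_apply, Equiv.swap_apply_of_ne_of_ne h1 h2,
    Equiv.swap_apply_of_ne_of_ne h1 h3]

theorem kap_v0 (h : v ≠ w) : (kap v w : Equiv.Perm (Half t l)) (Sum.inl (v, 0)) = Sum.inl (v, 0) :=
  kap_ne (by simp) (by simp) (by simp)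

theorem kap_v1 (h : v ≠ w) : (kap v w : Equiv.Perm (Half t l)) (Sum.inl (v, 1)) = Sum.inl (v, 1) :=
  kap_ne (by simp) (by simp [h]) (by simp)

theorem kap_w0 (h : v ≠ w) : (kap v w : Equiv.Perm (Half t l)) (Sum.inl (w, 0)) = Sum.inl (w, 0) :=
  kap_ne (by simp) (by simp) (by simp)

theorem kap_u {u : Fin t} (h : u ≠ v) (h' : u ≠ w) (k : Fin 3) :
    (kap v w : Equiv.Perm (Half t l)) (Sum.inl (u, k)) = Sum.inl (u, k) :=
  kap_ne (by simp [h]) (by simp [h']) (by simp [h'])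

theorem kap_inr (j : Fin l) :
    (kap v w : Equiv.Perm (Half t l)) (Sum.inr j) = Sum.inr j :=
  kap_ne (by simp) (by simp) (by simp)

theorem kap_mem (h : v ≠ w) (i : Fin t) (hi : i = v ∨ i = w) (k : Fin 3) :
    ∃ i' k', (i' = v ∨ i' = w) ∧
      (kap v w : Equiv.Perm (Half t l)) (Sum.inl (i, k)) = Sum.inl (i', k') := by
  rcases hi with rfl | rfl
  · fin_cases k
    · exact ⟨_, _, Or.inl rfl, kap_v0 h⟩
    · exact ⟨_, _, Or.inl rfl, kap_v1 h⟩
    · exact ⟨_, _, Or.inr rfl, kap_v2 h⟩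
  · fin_cases k
    · exact ⟨_, _, Or.inr rfl, kap_w0 h⟩
    · exact ⟨_, _, Or.inr rfl, kap_w1⟩
    · exact ⟨_, _, Or.inl rfl, kap_w2 h⟩

theorem kap_edge (h : v ≠ w) {ι : Equiv.Perm (Half t l)}
    (he : ι (Sum.inl (v, 0)) = Sum.inl (w, 0)) :
    cj (kap v w) ι (Sum.inl (v, 0)) = Sum.inl (w, 0) := by
  have := cj_apply (kap v w) ι (Sum.inl (v, 0))
  rw [kap_v0 h, he, kap_w0 h] at this
  exact this

theorem valid_kap (h : v ≠ w) {ι : Equiv.Perm (Half t l)} (hι : Valid ι)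
    (he : ι (Sum.inl (v, 0)) = Sum.inl (w, 0)) : Valid (cj (kap v w) ι) := by
  apply valid_cj hι
  intro P hP i k k' hk
  by_cases hi : i = v ∨ i = w
  · obtain ⟨i1, k1, h1, e1⟩ := kap_mem (l := l) h i hi k
    obtain ⟨i2, k2, h2, e2⟩ := kap_mem (l := l) h i hi k'
    rw [e1] at hk
    rw [e2]
    have hvw : ∀ k, Sum.inl (v, k) ∈ P → ∀ k', Sum.inl (w, k') ∈ P := by
      intro k hk k'
      have := hP.1 _ (hP.2 v k 0 hk)
      rw [kap_edge h he] at this
      exact hP.2 w 0 k' this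
    have hwv : ∀ k, Sum.inl (w, k) ∈ P → ∀ k', Sum.inl (v, k') ∈ P := by
      intro k hk k'
      have := hP.1 _ (hP.2 w k 0 hk)
      have e : cj (kap v w) ι (Sum.inl (w, 0)) = Sum.inl (v, 0) := by
        rw [← kap_edge h he]
        have h3 := cj_apply (kap v w) ι (Sum.inl (v, 0))
        rw [kap_v0 h] at h3
        rw [h3, cj_apply, hι.1, kap_v0 h]
      rw [e] at this
      exact hP.2 v 0 k' this
    rcases h1 with rfl | rfl <;> rcases h2 with rfl | rfl
    · exact hP.2 _ _ _ hk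
    · exact hvw _ hk _
    · exact hwv _ hk _
    · exact hP.2 _ _ _ hk
  · rw [kap_u (by tauto) (by tauto)] at hk ⊢
    exact hP.2 _ _ _ hk

theorem cl_ihx (h : v ≠ w) {ι : Equiv.Perm (Half t l)} (hι : Valid ι)
    (he : ι (Sum.inl (v, 0)) = Sum.inl (w, 0)) :
    cl ι + cl (cj (kap v w) ι) + cl (cj (kap v w) (cj (kap v w) ι)) = 0 := by
  have h1 := valid_kap h hι he
  have h2 := valid_kap h h1 (kap_edge h he)
  rw [cl_valid hι, cl_valid h1, cl_valid h2]
  have := rel_cl (Rel.ihx v w 0 0 h hι.diag h1.diag h2.diag he rfl rfl)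
  rw [QuotientAddGroup.mk_add, QuotientAddGroup.mk_add] at this
  exact this

theorem vperm_inl (s : Equiv.Perm (Fin t)) (i : Fin t) (k : Fin 3) :
    (vperm s : Equiv.Perm (Half t l)) (Sum.inl (i, k)) = Sum.inl (s i, k) := rfl

theorem vperm_inr (s : Equiv.Perm (Fin t)) (j : Fin l) :
    (vperm s : Equiv.Perm (Half t l)) (Sum.inr j) = Sum.inr j := rfl

theorem lperm_inl (s : Equiv.Perm (Fin l)) (x : Fin t × Fin 3) :
    (lperm s : Equiv.Perm (Half t l)) (Sum.inl x) = Sum.inl x := rfl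

theorem lperm_inr (s : Equiv.Perm (Fin l)) (j : Fin l) :
    (lperm s : Equiv.Perm (Half t l)) (Sum.inr j) = Sum.inr (s j) := rfl

/-- the automorphism -/
def theta (v w : Fin t) (a b : Fin l) : Equiv.Perm (Half t l) :=
  Equiv.swap (Sum.inl (v, 0)) (Sum.inl (w, 0)) *
    (Equiv.swap (Sum.inl (v, 1)) (Sum.inl (v, 2)) * lperm (Equiv.swap a b))

theorem theta_comm {ι : Equiv.Perm (Half t l)} (hι : Valid ι) {a b : Fin l} 
    (he : ι (Sum.inl (v, 0)) = Sum.inl (w, 0)) (ha : ι (Sum.inl (v, 1)) = Sum.inr a)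
    (hb : ι (Sum.inl (v, 2)) = Sum.inr b) : cj (theta v w a b) ι = ι := by
  have he' : ι (Sum.inl (w, 0)) = Sum.inl (v, 0) := by rw [← he, hι.1]
  have ha' : ι (Sum.inr a) = Sum.inl (v, 1) := by rw [← ha, hι.1]
  have hb' : ι (Sum.inr b) = Sum.inl (v, 2) := by rw [← hb, hι.1]
  have e1 : (lperm (Equiv.swap a b) : Equiv.Perm (Half t l)) = Equiv.swap (Sum.inr a) (Sum.inr b) := by
    ext h
    rcases h with h | j
    · rw [lperm_inl, Equiv.swap_apply_of_ne_of_ne] <;> simp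
    · rw [lperm_inr]
      simp only [Equiv.swap_apply_def, Sum.inr.injEq]
      split_ifs <;> rfl
  have hc : Commute (Equiv.swap (Sum.inl (v, 1)) (Sum.inl (v, 2)) : Equiv.Perm (Half t l))
      (Equiv.swap (Sum.inr a) (Sum.inr b)) := by
    by_cases hab : a = b
    · subst hab
      rw [Equiv.swap_self]
      exact Commute.one_right _
    · apply Equiv.Perm.Disjoint.commute
      apply Equiv.Perm.disjoint_swap_swap
      simp [hab]
  unfold cj theta
  rw [e1, mul_inv_eq_iff_eq_mul]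
  have m := fun x y => Equiv.mul_swap_eq_swap_mul ι x y
  set s1 : Equiv.Perm (Half t l) := Equiv.swap (Sum.inl (v, 0)) (Sum.inl (w, 0)) with hs1
  set s2 : Equiv.Perm (Half t l) := Equiv.swap (Sum.inl (v, 1)) (Sum.inl (v, 2)) with hs2
  set s3 : Equiv.Perm (Half t l) := Equiv.swap (Sum.inr a) (Sum.inr b) with hs3
  have m1 : ι * s1 = s1 * ι := by rw [hs1, m, he, he', Equiv.swap_comm]
  have m2 : ι * s2 = s3 * ι := by rw [hs2, m, ha, hb]
  have m3 : ι * s3 = s2 * ι := by rw [hs3, m, ha', hb']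
  calc s1 * (s2 * s3) * ι = s1 * (s3 * s2) * ι := by rw [hc.eq]
    _ = s1 * (s3 * (s2 * ι)) := by group
    _ = s1 * (s3 * (ι * s3)) := by rw [m3]
    _ = s1 * ((s3 * ι) * s3) := by group
    _ = s1 * ((ι * s2) * s3) := by rw [m2]
    _ = (s1 * ι) * (s2 * s3) := by group
    _ = (ι * s1) * (s2 * s3) := by rw [m1]
    _ = ι * (s1 * (s2 * s3)) := by group

theorem key_perm (h : v ≠ w) (a b : Fin l) :
    Equiv.swap (Sum.inl (w, 1)) (Sum.inl (w, 2)) *
      (vperm (Equiv.swap v w) * (lperm (Equiv.swap a b) * kap v w)) =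
    (kap v w * kap v w * theta v w a b : Equiv.Perm (Half t l)) := by
  have hvw : Equiv.swap v w v = w := Equiv.swap_apply_left _ _
  have hwv : Equiv.swap v w w = v := Equiv.swap_apply_right _ _
  have f1 : (Equiv.swap (Sum.inl (w, 1)) (Sum.inl (w, 2)) : Equiv.Perm (Half t l))
      (Sum.inl (w, 0)) = Sum.inl (w, 0) := by
    apply Equiv.swap_apply_of_ne_of_ne <;> simp
  have f2 : ∀ k, (Equiv.swap (Sum.inl (w, 1)) (Sum.inl (w, 2)) : Equiv.Perm (Half t l))
      (Sum.inl (v, k)) = Sum.inl (v, k) := by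
    intro k
    apply Equiv.swap_apply_of_ne_of_ne <;> simp [h]
  have f3 : ∀ j, (Equiv.swap (Sum.inl (w, 1)) (Sum.inl (w, 2)) : Equiv.Perm (Half t l))
      (Sum.inr j) = Sum.inr j := by
    intro j
    apply Equiv.swap_apply_of_ne_of_ne <;> simp
  have g0 : (Equiv.swap (Sum.inl (v, 0)) (Sum.inl (w, 0)) : Equiv.Perm (Half t l))
      (Sum.inl (v, 1)) = Sum.inl (v, 1) := by
    apply Equiv.swap_apply_of_ne_of_ne <;> simp
  have g0' : (Equiv.swap (Sum.inl (v, 0)) (Sum.inl (w, 0)) : Equiv.Perm (Half t l))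
      (Sum.inl (v, 2)) = Sum.inl (v, 2) := by
    apply Equiv.swap_apply_of_ne_of_ne <;> simp
  have g1 : (Equiv.swap (Sum.inl (v, 1)) (Sum.inl (v, 2)) : Equiv.Perm (Half t l))
      (Sum.inl (v, 0)) = Sum.inl (v, 0) := by
    apply Equiv.swap_apply_of_ne_of_ne <;> simp
  have g2 : ∀ k, (Equiv.swap (Sum.inl (v, 1)) (Sum.inl (v, 2)) : Equiv.Perm (Half t l))
      (Sum.inl (w, k)) = Sum.inl (w, k) := by
    intro k
    apply Equiv.swap_apply_of_ne_of_ne <;> simp [h.symm]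
  have g3 : ∀ j, (Equiv.swap (Sum.inl (v, 1)) (Sum.inl (v, 2)) : Equiv.Perm (Half t l))
      (Sum.inr j) = Sum.inr j := by
    intro j
    apply Equiv.swap_apply_of_ne_of_ne <;> simp
  have g4 : ∀ j, (Equiv.swap (Sum.inl (v, 0)) (Sum.inl (w, 0)) : Equiv.Perm (Half t l))
      (Sum.inr j) = Sum.inr j := by
    intro j
    apply Equiv.swap_apply_of_ne_of_ne <;> simp
  have g5 : (Equiv.swap (Sum.inl (v, 0)) (Sum.inl (w, 0)) : Equiv.Perm (Half t l))
      (Sum.inl (w, 1)) = Sum.inl (w, 1) := by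
    apply Equiv.swap_apply_of_ne_of_ne <;> simp
  have g6 : (Equiv.swap (Sum.inl (v, 0)) (Sum.inl (w, 0)) : Equiv.Perm (Half t l))
      (Sum.inl (w, 2)) = Sum.inl (w, 2) := by
    apply Equiv.swap_apply_of_ne_of_ne <;> simp
  ext x
  rcases x with ⟨i, k⟩ | j
  · by_cases h1 : i = v
    · subst h1
      fin_cases k
      · simp only [Equiv.Perm.mul_apply, theta, Fin.zero_eta, kap_v0 h, kap_w0 h, lperm_inl,
          vperm_inl, hvw, f1, g1, Equiv.swap_apply_left]
      · simp only [Equiv.Perm.mul_apply, theta, Fin.mk_one, kap_v1 h, kap_v2 h, kap_w1, lperm_inl,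
          vperm_inl, hvw, Equiv.swap_apply_left, g0']
      · simp only [Equiv.Perm.mul_apply, theta, Fin.reduceFinMk, kap_v1 h, kap_v2 h, kap_w1,
          lperm_inl, vperm_inl, hwv, f2, Equiv.swap_apply_right, g0]
    · by_cases h2 : i = w
      · subst h2
        fin_cases k
        · simp only [Equiv.Perm.mul_apply, theta, Fin.zero_eta, kap_v0 h, kap_w0 h, lperm_inl,
            vperm_inl, hwv, f2, g2, Equiv.swap_apply_right]
        · simp only [Equiv.Perm.mul_apply, theta, Fin.mk_one, kap_w2 h, kap_w1, lperm_inl,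
            vperm_inl, hwv, f2, g2, g5]
        · simp only [Equiv.Perm.mul_apply, theta, Fin.reduceFinMk, kap_v2 h, kap_w2 h, lperm_inl,
            vperm_inl, hvw, Equiv.swap_apply_right, g2, g6]
      · have hi : Equiv.swap v w i = i := Equiv.swap_apply_of_ne_of_ne h1 h2
        have f4 : (Equiv.swap (Sum.inl (w, 1)) (Sum.inl (w, 2)) : Equiv.Perm (Half t l))
            (Sum.inl (i, k)) = Sum.inl (i, k) := by
          apply Equiv.swap_apply_of_ne_of_ne <;> simp [h2]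
        have g7 : (Equiv.swap (Sum.inl (v, 1)) (Sum.inl (v, 2)) : Equiv.Perm (Half t l))
            (Sum.inl (i, k)) = Sum.inl (i, k) := by
          apply Equiv.swap_apply_of_ne_of_ne <;> simp [h1]
        have g8 : (Equiv.swap (Sum.inl (v, 0)) (Sum.inl (w, 0)) : Equiv.Perm (Half t l))
            (Sum.inl (i, k)) = Sum.inl (i, k) := by
          apply Equiv.swap_apply_of_ne_of_ne <;> simp [h1, h2]
        simp only [Equiv.Perm.mul_apply, theta, kap_u h1 h2, lperm_inl, vperm_inl, hi, f4, g7, g8]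
  · simp only [Equiv.Perm.mul_apply, theta, kap_inr, lperm_inr, vperm_inr, f3, g3, g4]

/-- A vertex with two legs: the diagram is a combination of diagrams with fewer legs. -/
theorem cherry0 {d : ℕ} (h : v ≠ w) {ι : Equiv.Perm (Half t l)} (hι : Valid ι)
    (hd : t + l = 2 * d) {a b : Fin l}
    (he : ι (Sum.inl (v, 0)) = Sum.inl (w, 0)) (ha : ι (Sum.inl (v, 1)) = Sum.inr a)
    (hb : ι (Sum.inl (v, 2)) = Sum.inr b) : cl ι ∈ Kl d (l - 1) := by
  have h1 := valid_kap h hι he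
  have h0 := cl_ihx h hι he
  have h2 := cl_lperm (Equiv.swap a b) h1 hd
  have h3 := valid_lperm (Equiv.swap a b) h1
  have e : cj (kap v w) (cj (kap v w) ι) =
      cj (Equiv.swap (Sum.inl (w, 1)) (Sum.inl (w, 2)))
        (cj (vperm (Equiv.swap v w)) (cj (lperm (Equiv.swap a b)) (cj (kap v w) ι))) := by
    rw [← cj_mul (lperm (Equiv.swap a b)), ← cj_mul (vperm (Equiv.swap v w)),
      ← cj_mul (Equiv.swap (Sum.inl (w, 1)) (Sum.inl (w, 2))), key_perm h a b,
      cj_mul _ (theta v w a b), theta_comm hι he ha hb, cj_mul]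
  obtain ⟨h4, h5⟩ := SM_vperm (Equiv.swap v w) _ h3
  obtain ⟨h6, h7⟩ := SM_swap w (by decide : (1 : Fin 3) ≠ 2) _ h4
  rw [e, h7, h5, one_smul, neg_one_smul] at h0
  have : cl ι = cl (cj (lperm (Equiv.swap a b)) (cj (kap v w) ι)) - cl (cj (kap v w) ι) := by
    rw [eq_sub_iff_add_eq]
    exact eq_of_sub_eq_zero (by rw [sub_eq_add_neg]; exact h0)
  rw [this]
  exact h2

end

end Pool.Agent.Helper1.JD
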