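import Pool.Agent.Helper1.JD.Str3

namespace Pool.Agent.Helper1.JD

open Finset

section
variable {t l : ℕ}

theorem units_smul_mem (H : AddSubgroup A) (u : ℤˣ) (x : A) : (u : ℤ) • x ∈ H ↔ x ∈ H := by
  rcases Int.units_eq_one_or u with rfl | rfl
  · simp
  · simp

theorem slots_mem (H : AddSubgroup A) (r : Fin t → Equiv.Perm (Fin 3))
    {ι : Equiv.Perm (Half t l)} (hι : Valid ι) :
    cl (cj (slots r) ι) ∈ H ↔ cl ι ∈ H := by
  rw [(SM_slots r ι hι).2]
  have : ∏ i, (Equiv.Perm.sign (r i) : ℤ) = ((∏ i, Equiv.Perm.sign (r i) : ℤˣ) : ℤ) := by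
    push_cast; rfl
  rw [this, units_smul_mem]

theorem third : ∀ k1 k2 : Fin 3, k1 ≠ k2 →
    ∃ k3, k3 ≠ k1 ∧ k3 ≠ k2 ∧ ∀ k, k = k1 ∨ k = k2 ∨ k = k3 := by decide

theorem slotperm : ∀ k1 k2 k3 : Fin 3, k1 ≠ k2 → k3 ≠ k1 → k3 ≠ k2 →
    ∃ r : Equiv.Perm (Fin 3), r k3 = 0 ∧ r k1 = 1 ∧ r k2 = 2 := by decide

theorem card_le_of_cover {n m : ℕ} (s : Finset (Fin n)) (hs : s.card ≤ m) (h : ∀ x, x ∈ s) :
    n ≤ m := by
  have : s = univ := Finset.eq_univ_of_forall h
  rw [this] at hs
  simpa using hs

theorem cherry {d : ℕ} (hd3 : 3 ≤ d) {ι : Equiv.Perm (Half t l)} (hι : Valid ι)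
    (hd : t + l = 2 * d) {a b : Fin l} (hab : a ≠ b) {v : Fin t} {k1 k2 : Fin 3}
    (ha : ι (Sum.inr a) = Sum.inl (v, k1)) (hb : ι (Sum.inr b) = Sum.inl (v, k2)) :
    cl ι ∈ Kl d (l - 1) := by
  have hk : k1 ≠ k2 := by
    rintro rfl
    have : (Sum.inr a : Half t l) = Sum.inr b := ι.injective (by rw [ha, hb])
    exact hab (Sum.inr_injective this)
  have ha' : ι (Sum.inl (v, k1)) = Sum.inr a := by rw [← ha, hι.1]
  have hb' : ι (Sum.inl (v, k2)) = Sum.inr b := by rw [← hb, hι.1]
  obtain ⟨k3, h31, h32, hk3⟩ := third k1 k2 hk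
  rcases hc : ι (Sum.inl (v, k3)) with ⟨w, k'⟩ | c
  · have hw : v ≠ w := by
      rintro rfl
      have hc' : ι (Sum.inl (v, k')) = Sum.inl (v, k3) := by rw [← hc, hι.1]
      rcases hk3 k' with rfl | rfl | rfl
      · rw [ha'] at hc'; cases hc'
      · rw [hb'] at hc'; cases hc'
      · exact hι.2.1 _ hc
    obtain ⟨rv, r3, r1, r2⟩ := slotperm k1 k2 k3 hk h31 h32
    set r : Fin t → Equiv.Perm (Fin 3) :=
      fun i => if i = v then rv else if i = w then Equiv.swap k' 0 else 1 with hr
    have rv' : r v = rv := if_pos rfl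
    have rw' : r w = Equiv.swap k' 0 := by
      show (if w = v then rv else if w = w then Equiv.swap k' 0 else 1) = _
      rw [if_neg hw.symm, if_pos rfl]
    have hs := (SM_slots (l := l) r ι hι).1
    rw [← slots_mem _ r hι]
    have e1 : (slots r : Equiv.Perm (Half t l)) (Sum.inl (v, k3)) = Sum.inl (v, 0) := by
      show Sum.inl (v, r v k3) = _
      rw [rv', r3]
    have e2 : (slots r : Equiv.Perm (Half t l)) (Sum.inl (v, k1)) = Sum.inl (v, 1) := by
      show Sum.inl (v, r v k1) = _
      rw [rv', r1]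
    have e3 : (slots r : Equiv.Perm (Half t l)) (Sum.inl (v, k2)) = Sum.inl (v, 2) := by
      show Sum.inl (v, r v k2) = _
      rw [rv', r2]
    have e4 : (slots r : Equiv.Perm (Half t l)) (Sum.inl (w, k')) = Sum.inl (w, 0) := by
      show Sum.inl (w, r w k') = _
      rw [rw', Equiv.swap_apply_left]
    refine cherry0 hw hs hd (a := a) (b := b) ?_ ?_ ?_
    · rw [← e1, cj_apply, hc, e4]
    · rw [← e2, cj_apply, ha']; rfl
    · rw [← e3, cj_apply, hb']; rfl
  · exfalso
    have hc' : ι (Sum.inr c) = Sum.inl (v, k3) := by rw [← hc, hι.1]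
    set P : Set (Half t l) := {x | (∃ k, x = Sum.inl (v, k)) ∨ x = Sum.inr a ∨ x = Sum.inr b ∨
      x = Sum.inr c} with hP
    have hcl : Closed ι P := by
      constructor
      · rintro x (⟨k, rfl⟩ | rfl | rfl | rfl)
        · rcases hk3 k with rfl | rfl | rfl
          · right; left; exact ha'
          · right; right; left; exact hb'
          · right; right; right; exact hc
        · left; exact ⟨_, ha⟩
        · left; exact ⟨_, hb⟩
        · left; exact ⟨_, hc'⟩
      · rintro i k k' (⟨m, hm⟩ | hm | hm | hm)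
        · have : i = v := by
            have := Sum.inl_injective hm
            exact (Prod.mk.inj this).1
          subst this
          left; exact ⟨_, rfl⟩
        · cases hm
        · cases hm
        · cases hm
    have huniv := hι.2.2.1 P hcl ⟨Sum.inr a, Or.inr (Or.inl rfl)⟩
    have ht : t ≤ 1 := by
      apply card_le_of_cover {v} (by simp)
      intro i
      have : (Sum.inl (i, 0) : Half t l) ∈ P := by rw [huniv]; trivial
      rcases this with ⟨m, hm⟩ | hm | hm | hm
      · have := Sum.inl_injective hm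
        rw [(Prod.mk.inj this).1]
        simp
      · cases hm
      · cases hm
      · cases hm
    have hl : l ≤ 3 := by
      apply card_le_of_cover {a, b, c} Finset.card_le_three
      intro j
      have : (Sum.inr j : Half t l) ∈ P := by rw [huniv]; trivial
      rcases this with ⟨m, hm⟩ | hm | hm | hm
      · cases hm
      · rw [Sum.inr_injective hm]; simp
      · rw [Sum.inr_injective hm]; simp
      · rw [Sum.inr_injective hm]; simp
    omega

theorem leg_inl {d : ℕ} (hd3 : 3 ≤ d) {ι : Equiv.Perm (Half t l)} (hι : Valid ι)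
    (hd : t + l = 2 * d) (j : Fin l) : ∃ p, ι (Sum.inr j) = Sum.inl p := by
  rcases hj : ι (Sum.inr j) with p | j'
  · exact ⟨p, rfl⟩
  · exfalso
    have hj' : ι (Sum.inr j') = Sum.inr j := by rw [← hj, hι.1]
    set P : Set (Half t l) := {x | x = Sum.inr j ∨ x = Sum.inr j'} with hP
    have hcl : Closed ι P := by
      constructor
      · rintro x (rfl | rfl)
        · right; exact hj
        · left; exact hj'
      · rintro i k k' (hm | hm) <;> cases hm
    have huniv := hι.2.2.1 P hcl ⟨Sum.inr j, Or.inl rfl⟩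
    have ht : t ≤ 0 := by
      apply card_le_of_cover ∅ (by simp)
      intro i
      have : (Sum.inl (i, 0) : Half t l) ∈ P := by rw [huniv]; trivial
      rcases this with hm | hm <;> cases hm
    have hl : l ≤ 2 := by
      apply card_le_of_cover {j, j'} Finset.card_le_two
      intro x
      have : (Sum.inr x : Half t l) ∈ P := by rw [huniv]; trivial
      rcases this with hm | hm <;> rw [Sum.inr_injective hm] <;> simp
    omega

/-- Either there are fewer legs up to smaller diagrams, or all legs are at different vertices. -/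
theorem cherry_or_inj {d : ℕ} (hd3 : 3 ≤ d) {ι : Equiv.Perm (Half t l)} (hι : Valid ι)
    (hd : t + l = 2 * d) : cl ι ∈ Kl d (l - 1) ∨
      ∃ f : Fin l → Fin t × Fin 3, (∀ j, ι (Sum.inr j) = Sum.inl (f j)) ∧
        Function.Injective fun j => (f j).1 := by
  choose f hf using leg_inl hd3 hι hd
  by_cases hinj : Function.Injective fun j => (f j).1
  · exact Or.inr ⟨f, hf, hinj⟩
  · left
    unfold Function.Injective at hinj
    push Not at hinj
    obtain ⟨a, b, hab, hne⟩ := hinj
    refine cherry hd3 hι hd (a := a) (b := b) hne (v := (f a).1) (k1 := (f a).2) (k2 := (f b).2) ?_ ?_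
    · rw [hf]
    · rw [hf, hab]

theorem Kl_le {d : ℕ} (hd3 : 3 ≤ d) : ∀ l t : ℕ, ∀ ι : Equiv.Perm (Half t l), Valid ι →
    t + l = 2 * d → cl ι ∈ Kl d d := by
  intro l
  induction l using Nat.strong_induction_on with
  | _ l ih =>
    intro t ι hι hd
    by_cases hl : l ≤ d
    · exact mem_Kl hι hd hl
    · have h1 : cl ι ∈ Kl d (l - 1) := by
        rcases cherry_or_inj hd3 hι hd with h | ⟨f, _, hf⟩
        · exact h
        · exfalso
          have := Fintype.card_le_of_injective _ hf
          simp at this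
          omega
      have h2 : Kl d (l - 1) ≤ Kl d d := by
        unfold Kl
        rw [AddSubgroup.closure_le]
        rintro x ⟨t', l', ι', h3, h4, h5, rfl⟩
        exact ih l' (by omega) t' ι' h5 h3
      exact h2 h1

end

end Pool.Agent.Helper1.JD
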