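import Pool.Agent.Helper1.JD.Stu

namespace Pool.Agent.Helper1.JD

open Finset

section hom
variable {R : Type*} [Ring R] {B : Type*} [AddCommGroup B] (X : Fin 3 → R) (τ : R →+ B)

/-- the weight system on the free group -/
def weight0 : Free →+ B := FreeAbelianGroup.lift fun p => wt X τ p.2

theorem weight0_gen {t l : ℕ} (D : Diag t l) : weight0 X τ (gen D) = wt X τ D := by
  unfold weight0 gen
  rw [FreeAbelianGroup.lift_apply_of]

theorem weight0_rel (h3 : ∀ b : B, (3 : ℤ) • b = 0 → b = 0) (hτ : ∀ x y, τ (x * y) = τ (y * x))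
    (hX : ∀ a b, X a * X b - X b * X a = ∑ k, (2 * eps a b k) • X k) {x : Free} (hx : Rel x) :
    weight0 X τ x = 0 := by
  cases hx with
  | vert s D D' h => rw [map_sub, weight0_gen, weight0_gen, wt_vert X τ s h, sub_self]
  | rot D D' h => rw [map_sub, weight0_gen, weight0_gen, wt_rot X τ hτ h, sub_self]
  | as i k k' hk D D' h => rw [map_add, weight0_gen, weight0_gen, wt_as X τ i k k' hk h]
  | ihx i j k k' hij D D' D'' he h' h'' =>
    rw [map_add, map_add, weight0_gen, weight0_gen, weight0_gen,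
      wt_ihx X τ h3 i j k k' hij D D' D'' he h' h'']
  | stu T U S hU hS hS' =>
    rw [map_sub, map_sub, weight0_gen, weight0_gen, weight0_gen,
      wt_stu X τ hX T U S hU hS hS']

theorem exists_weight (h3 : ∀ b : B, (3 : ℤ) • b = 0 → b = 0)
    (hτ : ∀ x y, τ (x * y) = τ (y * x))
    (hX : ∀ a b, X a * X b - X b * X a = ∑ k, (2 * eps a b k) • X k) :
    ∃ W : A →+ B, ∀ (t l : ℕ) (D : Diag t l), W (cls D) = wt X τ D := by
  have hle : AddSubgroup.closure {x : Free | Rel x} ≤ (weight0 X τ).ker := by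
    rw [AddSubgroup.closure_le]
    intro x hx
    exact weight0_rel X τ h3 hτ hX hx
  refine ⟨QuotientAddGroup.lift _ (weight0 X τ) hle, fun t l D => ?_⟩
  unfold cls
  rw [QuotientAddGroup.lift_mk, weight0_gen]

end hom

/-! ### The wheel -/

/-- the involution of the wheel -/
def wheelFun (n : ℕ) : Half (n + 1) (n + 1) → Half (n + 1) (n + 1)
  | Sum.inl (i, 0) => Sum.inr i
  | Sum.inl (i, 1) => Sum.inl ((finRotate (n + 1)).symm i, 2)
  | Sum.inl (i, 2) => Sum.inl (finRotate (n + 1) i, 1)
  | Sum.inr i => Sum.inl (i, 0)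

theorem wheelFun_invol (n : ℕ) : Function.Involutive (wheelFun n) := by
  rintro (⟨i, k⟩ | i)
  · fin_cases k
    · rfl
    · show wheelFun n (Sum.inl ((finRotate (n + 1)).symm i, 2)) = _
      show Sum.inl (finRotate (n + 1) ((finRotate (n + 1)).symm i), 1) = _
      rw [Equiv.apply_symm_apply]; rfl
    · show Sum.inl ((finRotate (n + 1)).symm (finRotate (n + 1) i), 2) = _
      rw [Equiv.symm_apply_apply]; rfl
  · rfl

theorem wheel_closed {n : ℕ} {P : Set (Half (n + 1) (n + 1))} (hP : Closed (wheelFun n) P)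
    (hne : P.Nonempty) : ∀ h, h ∈ P := by
  have h1 : ∃ i k, Sum.inl (i, k) ∈ P := by
    obtain ⟨⟨i, k⟩ | i, h⟩ := hne
    · exact ⟨i, k, h⟩
    · exact ⟨i, 0, hP.1 _ h⟩
  obtain ⟨i, k, hi⟩ := h1
  have step : ∀ i, (∀ k, Sum.inl (i, k) ∈ P) → ∀ k, Sum.inl (i + 1, k) ∈ P := by
    intro i hi k
    have := hP.1 _ (hi 2)
    have e : wheelFun n (Sum.inl (i, 2)) = Sum.inl (i + 1, 1) := by
      show Sum.inl (finRotate (n + 1) i, 1) = _
      rw [finRotate_succ_apply]
    rw [e] at this
    exact hP.2 _ 1 k this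
  have all : ∀ m : Fin (n + 1), ∀ k, Sum.inl (i + m, k) ∈ P := by
    intro m
    induction m using Fin.induction with
    | zero => intro k'; simpa using hP.2 i k k' hi
    | succ m ih =>
      intro k'
      have := step _ ih k'
      rw [← Fin.coeSucc_eq_succ, ← add_assoc]
      exact this
  have all' : ∀ j k, Sum.inl (j, k) ∈ P := by
    intro j k
    have := all (j - i) k
    rw [add_sub_cancel] at this
    exact this
  rintro (⟨j, k⟩ | j)
  · exact all' j k
  · exact hP.1 _ (all' j 0)

/-- the wheel with `n + 1` legs, attached in the natural order -/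
def wheel (n : ℕ) : Diag (n + 1) (n + 1) where
  ι := (wheelFun_invol n).toPerm
  invol := wheelFun_invol n
  nofix := by
    rintro (⟨i, k⟩ | i)
    · fin_cases k
      · show Sum.inr i ≠ _
        simp
      · show Sum.inl ((finRotate (n + 1)).symm i, (2 : Fin 3)) ≠ Sum.inl (i, 1)
        simp
      · show Sum.inl (finRotate (n + 1) i, (1 : Fin 3)) ≠ Sum.inl (i, 2)
        simp
    · show Sum.inl (i, (0 : Fin 3)) ≠ Sum.inr i
      simp
  legs := by
    intro P hP hne
    exact ⟨0, wheel_closed hP hne _⟩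

theorem wheel_connected (n : ℕ) : (wheel n).Connected := by
  intro P hP hne
  exact Set.eq_univ_of_forall (wheel_closed hP hne)

section weight
variable {R : Type*} [Ring R] {B : Type*} [AddCommGroup B] (X : Fin 3 → R) (τ : R →+ B)

theorem ofFn_sum_prod : ∀ (n : ℕ) (f : Fin n → Fin 3 → R),
    (List.ofFn fun i => ∑ a, f i a).prod = ∑ a : Fin n → Fin 3, (List.ofFn fun i => f i (a i)).prod
  | 0, f => by simp
  | n + 1, f => by
    rw [List.ofFn_succ, List.prod_cons, ofFn_sum_prod n (fun i => f i.succ)]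
    rw [← (Fin.consEquiv (fun _ : Fin (n + 1) => Fin 3)).sum_comp, Fintype.sum_prod_type,
      Finset.sum_mul]
    refine Finset.sum_congr rfl fun x _ => ?_
    rw [Finset.mul_sum]
    refine Finset.sum_congr rfl fun a _ => ?_
    rw [List.ofFn_succ, List.prod_cons]
    rfl

theorem ofFn_smul_prod : ∀ (n : ℕ) (z : Fin n → ℤ) (x : Fin n → R),
    (List.ofFn fun i => z i • x i).prod = (∏ i, z i) • (List.ofFn x).prod
  | 0, z, x => by simp
  | n + 1, z, x => by
    rw [List.ofFn_succ, List.prod_cons, ofFn_smul_prod n (fun i => z i.succ) (fun i => x i.succ),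
      List.ofFn_succ, List.prod_cons, Fin.prod_univ_succ, smul_mul_assoc, mul_smul_comm, smul_smul]

/-- the matrix of the wheel -/
def Om : Matrix (Fin 3) (Fin 3) R := fun x y => ∑ a, eps a x y • X a

theorem pow_path : ∀ (n : ℕ) (M : Matrix (Fin 3) (Fin 3) R) (x y : Fin 3),
    (M ^ (n + 1)) x y = ∑ b : Fin n → Fin 3,
      (List.ofFn fun i : Fin (n + 1) => M ((Fin.cons x b : Fin (n + 1) → Fin 3) i)
        ((Fin.snoc b y : Fin (n + 1) → Fin 3) i)).prod
  | 0, M, x, y => by
    simp [Fin.snoc]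
  | n + 1, M, x, y => by
    rw [pow_succ', Matrix.mul_apply]
    rw [← (Fin.consEquiv (fun _ : Fin (n + 1) => Fin 3)).sum_comp, Fintype.sum_prod_type]
    refine Finset.sum_congr rfl fun z _ => ?_
    rw [pow_path n M z y, Finset.mul_sum]
    refine Finset.sum_congr rfl fun b _ => ?_
    rw [List.ofFn_succ (n := n + 1), List.prod_cons]
    congr 1
    congr 2
    funext i
    show _ = M ((Fin.cons z b : Fin (n + 1) → Fin 3) i)
      ((Fin.snoc (Fin.cons z b : Fin (n + 1) → Fin 3) y : Fin (n + 2) → Fin 3) i.succ)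
    congr 1
    rw [← Fin.cons_snoc_eq_snoc_cons]
    rfl

theorem trace_pow (n : ℕ) (M : Matrix (Fin 3) (Fin 3) R) :
    Matrix.trace (M ^ (n + 1)) = ∑ b : Fin (n + 1) → Fin 3,
      (List.ofFn fun i : Fin (n + 1) => M (b i) (b (finRotate _ i))).prod := by
  unfold Matrix.trace
  rw [← (Fin.consEquiv (fun _ : Fin (n + 1) => Fin 3)).sum_comp, Fintype.sum_prod_type]
  refine Finset.sum_congr rfl fun x _ => ?_
  rw [Matrix.diag_apply, pow_path]
  refine Finset.sum_congr rfl fun b _ => ?_
  congr 2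
  funext i
  have := congrFun (Fin.snoc_eq_cons_rotate (α := Fin 3) b x) i
  rw [this]
  rfl

/-- the colouring of the wheel -/
def wcol (n : ℕ) (a b : Fin (n + 1) → Fin 3) : Half (n + 1) (n + 1) → Fin 3
  | Sum.inl (i, 0) => a i
  | Sum.inl (i, 1) => b i
  | Sum.inl (i, 2) => b (finRotate (n + 1) i)
  | Sum.inr i => a i

theorem wt_wheel (n : ℕ) :
    wt X τ (wheel n) = (2 ^ (n + 1) : ℤ) • τ (Matrix.trace (Om X ^ (n + 1))) := by
  unfold wt
  congr 1
  have e1 : csum X τ (wheel n) = ∑ p : (Fin (n + 1) → Fin 3) × (Fin (n + 1) → Fin 3),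
      term X τ (wcol n p.1 p.2) := by
    unfold csum
    symm
    refine Finset.sum_bij' (fun p _ => wcol n p.1 p.2)
      (fun c _ => (fun i => c (Sum.inr i), fun i => c (Sum.inl (i, 1)))) ?_ ?_ ?_ ?_ ?_
    · rintro ⟨a, b⟩ _
      rw [mem_col]
      rintro (⟨i, k⟩ | i)
      · fin_cases k
        · rfl
        · show b (finRotate (n + 1) ((finRotate (n + 1)).symm i)) = b i
          rw [Equiv.apply_symm_apply]
        · rfl
      · rfl
    · intro c _
      exact mem_univ _
    · rintro ⟨a, b⟩ _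
      rfl
    · intro c hc
      rw [mem_col] at hc
      funext h
      rcases h with ⟨i, k⟩ | i
      · fin_cases k
        · exact hc (Sum.inl (i, 0))
        · rfl
        · exact hc (Sum.inl (i, 2))
      · rfl
    · intro p _
      rfl
  rw [e1, trace_pow, map_sum, Fintype.sum_prod_type_right]
  refine Finset.sum_congr rfl fun b _ => ?_
  have e2 : (List.ofFn fun i : Fin (n + 1) => Om X (b i) (b (finRotate _ i))).prod =
      ∑ a : Fin (n + 1) → Fin 3, (∏ i, eps (a i) (b i) (b (finRotate _ i))) •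
        (List.ofFn fun i => X (a i)).prod := by
    unfold Om
    rw [ofFn_sum_prod (n + 1) (fun i a => eps a (b i) (b (finRotate _ i)) • X a)]
    refine Finset.sum_congr rfl fun a _ => ?_
    rw [ofFn_smul_prod]
  rw [e2, map_sum]
  refine Finset.sum_congr rfl fun a _ => ?_
  rw [map_zsmul]
  rfl

end weight

end Pool.Agent.Helper1.JD
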