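import Pool.Agent.Helper1.JD.Str4
import Pool.Agent.Helper1.JD.Wheel

namespace Pool.Agent.Helper1.JD

open Finset

section orient
variable {d : ℕ}

/-- the slots `1`, `2` -/
def emb2 (x : Fin d × Bool) : Half d d := Sum.inl (x.1, bif x.2 then 2 else 1)

theorem emb2_injective : Function.Injective (emb2 : Fin d × Bool → Half d d) := by
  rintro ⟨i, b⟩ ⟨i', b'⟩ h
  have h1 := Sum.inl_injective h
  have h2 := (Prod.mk.inj h1).1
  have h3 := (Prod.mk.inj h1).2
  simp only at h2 h3
  subst h2
  cases b <;> cases b' <;> simp_all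

theorem emb2_cases {P : Half d d → Prop} (h0 : ∀ i, P (Sum.inl (i, 0)))
    (h1 : ∀ x, P (emb2 x)) (h2 : ∀ i, P (Sum.inr i)) (h) : P h := by
  rcases h with ⟨i, k⟩ | i
  · fin_cases k
    · exact h0 i
    · exact h1 (i, false)
    · exact h1 (i, true)
  · exact h2 i

theorem emb2_ne0 (x : Fin d × Bool) (i : Fin d) : emb2 x ≠ Sum.inl (i, 0) := by
  rcases x with ⟨j, b⟩
  intro h
  have h1 := (Prod.mk.inj (Sum.inl_injective h)).2
  cases b <;> simp at h1

theorem emb2_ne (x : Fin d × Bool) (i : Fin d) : emb2 x ≠ Sum.inr i := by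
  intro h; cases h

/-- other side -/
def rho : Equiv.Perm (Fin d × Bool) where
  toFun x := (x.1, !x.2)
  invFun x := (x.1, !x.2)
  left_inv x := by simp
  right_inv x := by simp

theorem rho_rho (x : Fin d × Bool) : rho (rho x) = x := by
  simp [rho]

theorem rho_ne (x : Fin d × Bool) : rho x ≠ x := by
  rcases x with ⟨i, b⟩
  intro h
  have := (Prod.mk.inj h).2
  cases b <;> simp at this

theorem exists_side {ι : Equiv.Perm (Half d d)} (hι : Valid ι)
    (h0 : ∀ i, ι (Sum.inr i) = Sum.inl (i, 0)) :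
    ∃ j : Equiv.Perm (Fin d × Bool), (∀ x, j (j x) = x) ∧ (∀ x, j x ≠ x) ∧
      ∀ x, ι (emb2 x) = emb2 (j x) := by
  have h0' : ∀ i, ι (Sum.inl (i, 0)) = Sum.inr i := fun i => by rw [← h0, hι.1]
  have ex : ∀ x, ∃ y, ι (emb2 x) = emb2 y := by
    intro x
    have key : ∀ h, ι (emb2 x) = h → ∃ y, h = emb2 y := by
      intro h
      induction h using emb2_cases with
      | h0 i =>
        intro e
        exfalso
        have : emb2 x = Sum.inr i := by rw [← h0', ← e, hι.1]
        exact emb2_ne _ _ this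
      | h1 y => intro _; exact ⟨y, rfl⟩
      | h2 i =>
        intro e
        exfalso
        have : emb2 x = Sum.inl (i, 0) := by rw [← h0, ← e, hι.1]
        exact emb2_ne0 _ _ this
    exact key _ rfl
  choose j hj using ex
  have jj : ∀ x, j (j x) = x := by
    intro x
    apply emb2_injective
    rw [← hj, ← hj, hι.1]
  refine ⟨⟨j, j, jj, jj⟩, jj, ?_, hj⟩
  intro x hx
  have hx' : j x = x := hx
  apply hι.2.1 (emb2 x)
  rw [hj, hx']

/-- orbits of `rho * j` are disjoint from their mirror images -/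
theorem orbit_disjoint {j : Equiv.Perm (Fin d × Bool)} (jj : ∀ x, j (j x) = x)
    (jne : ∀ x, j x ≠ x) (k : ℤ) (x : Fin d × Bool) :
    ((rho * j : Equiv.Perm (Fin d × Bool)) ^ k) x ≠ rho x := by
  have hρ : (rho * rho : Equiv.Perm (Fin d × Bool)) = 1 := by
    ext z : 1
    exact rho_rho z
  have hjj : j * j = 1 := by
    ext z : 1
    exact jj z
  have hj' : j⁻¹ = j := inv_eq_of_mul_eq_one_left hjj
  have conj : ∀ (m : ℤ) (y : Fin d × Bool),
      rho (((rho * j : Equiv.Perm (Fin d × Bool)) ^ m) y) =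
        ((rho * j : Equiv.Perm (Fin d × Bool)) ^ (-m)) (rho y) := by
    intro m y
    have h1 : (rho * (rho * j) * rho⁻¹ : Equiv.Perm (Fin d × Bool)) = (rho * j)⁻¹ := by
      rw [mul_inv_rev, hj', ← mul_assoc, hρ, one_mul]
    have h2 : (rho * (rho * j) ^ m * rho⁻¹ : Equiv.Perm (Fin d × Bool)) = (rho * j) ^ (-m) := by
      rw [← conj_zpow, h1, inv_zpow, zpow_neg]
    rw [← h2]
    simp
  have add : ∀ (m m' : ℤ) (y : Fin d × Bool),
      ((rho * j : Equiv.Perm (Fin d × Bool)) ^ m) (((rho * j : Equiv.Perm (Fin d × Bool)) ^ m') y) =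
        ((rho * j : Equiv.Perm (Fin d × Bool)) ^ (m + m')) y := by
    intro m m' y
    rw [zpow_add]
    rfl
  intro hk
  rcases Int.even_or_odd' k with ⟨m, rfl | rfl⟩
  · have h1 := conj m x
    rw [← hk, add] at h1
    have e : -m + 2 * m = m := by ring
    rw [e] at h1
    exact rho_ne _ h1
  · have h1 := conj (m + 1) x
    rw [← hk, add] at h1
    have e : -(m + 1) + (2 * m + 1) = m := by ring
    have e2 : ((rho * j : Equiv.Perm (Fin d × Bool)) ^ (m + 1)) x =
        rho (j (((rho * j : Equiv.Perm (Fin d × Bool)) ^ m) x)) := by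
      rw [add_comm m 1, zpow_add, zpow_one]
      rfl
    rw [e, e2, rho_rho] at h1
    exact jne _ h1

theorem exists_orient {ι : Equiv.Perm (Half d d)} (hι : Valid ι)
    (h0 : ∀ i, ι (Sum.inr i) = Sum.inl (i, 0)) :
    ∃ (r : Fin d → Equiv.Perm (Fin 3)) (σ : Fin d → Fin d),
      (∀ i, cj (slots r) ι (Sum.inr i) = Sum.inl (i, 0)) ∧
      ∀ i, cj (slots r) ι (Sum.inl (i, 2)) = Sum.inl (σ i, 1) := by
  classical
  have h0' : ∀ i, ι (Sum.inl (i, 0)) = Sum.inr i := fun i => by rw [← h0, hι.1]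
  obtain ⟨j, jj, jne, hj⟩ := exists_side hι h0
  have hd : 0 < d := hι.2.2.2
  set ν : Equiv.Perm (Fin d × Bool) := rho * j with hν
  set x0 : Fin d × Bool := (⟨0, hd⟩, true) with hx0
  set O : Set (Fin d × Bool) := {x | Equiv.Perm.SameCycle ν x0 x} with hO
  have O1 : ∀ x ∈ O, ν x ∈ O := fun x hx => Equiv.Perm.SameCycle.apply_right hx
  have O2 : ∀ x ∈ O, ν.symm x ∈ O := fun x hx => Equiv.Perm.SameCycle.symm_apply_right hx
  have O3 : ∀ x ∈ O, rho x ∉ O := by
    intro x hx hx'
    have h1 : Equiv.Perm.SameCycle ν x (rho x) := (Equiv.Perm.SameCycle.symm hx).trans hx'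
    obtain ⟨k, hk⟩ := h1
    exact orbit_disjoint jj jne k x hk
  -- every vertex has a side in the orbit
  set V : Set (Fin d) := {i | ∃ b, (i, b) ∈ O} with hV
  have step : ∀ x : Fin d × Bool, x.1 ∈ V → (j x).1 ∈ V := by
    rintro x ⟨b, hb⟩
    by_cases hx : x ∈ O
    · have := O1 x hx
      exact ⟨_, this⟩
    · have hx' : rho x ∈ O := by
        have : (x.1, b) = rho x := by
          rcases x with ⟨i, c⟩
          have hbc : b ≠ c := fun e => hx (e ▸ hb)
          show (i, b) = (i, !c)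
          cases b <;> cases c <;> simp_all
        rw [← this]; exact hb
      have h1 := O2 _ hx'
      have h2 : ν.symm (rho x) = j x := by
        rw [Equiv.symm_apply_eq, hν, Equiv.Perm.mul_apply, jj]
      rw [h2] at h1
      exact ⟨_, h1⟩
  have hVall : ∀ i, i ∈ V := by
    set P : Set (Half d d) := {h | (∃ i k, i ∈ V ∧ h = Sum.inl (i, k)) ∨ ∃ i, i ∈ V ∧ h = Sum.inr i}
      with hP
    have hcl : Closed ι P := by
      constructor
      · intro h
        induction h using emb2_cases with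
        | h0 i =>
          rintro (⟨i', k, hi, e⟩ | ⟨i', hi, e⟩)
          · have := (Prod.mk.inj (Sum.inl_injective e)).1
            subst this
            right; exact ⟨i, hi, h0' i⟩
          · cases e
        | h1 x =>
          rintro (⟨i', k, hi, e⟩ | ⟨i', hi, e⟩)
          · have := (Prod.mk.inj (Sum.inl_injective e)).1
            subst this
            left
            exact ⟨(j x).1, _, step x hi, by rw [hj]; rfl⟩
          · cases e
        | h2 i =>
          rintro (⟨i', k, hi, e⟩ | ⟨i', hi, e⟩)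
          · cases e
          · have := Sum.inr_injective e
            subst this
            left; exact ⟨i, 0, hi, h0 i⟩
      · rintro i k k' (⟨i', m, hi, e⟩ | ⟨i', hi, e⟩)
        · have := (Prod.mk.inj (Sum.inl_injective e)).1
          subst this
          left; exact ⟨i, k', hi, rfl⟩
        · cases e
    have hne : P.Nonempty := ⟨Sum.inr ⟨0, hd⟩, Or.inr ⟨_, ⟨true, Equiv.Perm.SameCycle.refl _ _⟩, rfl⟩⟩
    have huniv := hι.2.2.1 P hcl hne
    intro i
    have : (Sum.inr i : Half d d) ∈ P := by rw [huniv]; trivial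
    rcases this with ⟨i', m, hi, e⟩ | ⟨i', hi, e⟩
    · cases e
    · rw [Sum.inr_injective e]; exact hi
  have hO4 : ∀ i, (i, true) ∉ O → (i, false) ∈ O := by
    intro i hi
    obtain ⟨b, hb⟩ := hVall i
    cases b
    · exact hb
    · exact absurd hb hi
  set r : Fin d → Equiv.Perm (Fin 3) := fun i => if (i, true) ∈ O then 1 else Equiv.swap 1 2 with hr
  have rO : ∀ x ∈ O, (slots r : Equiv.Perm (Half d d)) (emb2 x) = Sum.inl (x.1, 2) := by
    rintro ⟨i, b⟩ hx
    cases b
    · have : (i, true) ∉ O := O3 _ hx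
      show Sum.inl (i, (if (i, true) ∈ O then 1 else Equiv.swap 1 2 : Equiv.Perm (Fin 3)) 1) = _
      rw [if_neg this, Equiv.swap_apply_left]
    · show Sum.inl (i, (if (i, true) ∈ O then 1 else Equiv.swap 1 2 : Equiv.Perm (Fin 3)) 2) = _
      rw [if_pos hx]
      rfl
  have rO' : ∀ x, rho x ∈ O → (slots r : Equiv.Perm (Half d d)) (emb2 x) = Sum.inl (x.1, 1) := by
    rintro ⟨i, b⟩ hx
    cases b
    · show Sum.inl (i, (if (i, true) ∈ O then 1 else Equiv.swap 1 2 : Equiv.Perm (Fin 3)) 1) = _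
      have hx' : (i, true) ∈ O := hx
      rw [if_pos hx']
      rfl
    · show Sum.inl (i, (if (i, true) ∈ O then 1 else Equiv.swap 1 2 : Equiv.Perm (Fin 3)) 2) = _
      have : (i, true) ∉ O := by
        have := O3 _ hx
        rwa [rho_rho] at this
      rw [if_neg this, Equiv.swap_apply_right]
  have r0 : ∀ i, (slots r : Equiv.Perm (Half d d)) (Sum.inl (i, 0)) = Sum.inl (i, 0) := by
    intro i
    show Sum.inl (i, (if (i, true) ∈ O then 1 else Equiv.swap 1 2 : Equiv.Perm (Fin 3)) 0) = _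
    split_ifs
    · rfl
    · rw [Equiv.swap_apply_of_ne_of_ne] <;> decide
  have rr : ∀ i, (slots r : Equiv.Perm (Half d d)) (Sum.inr i) = Sum.inr i := fun i => rfl
  have ex : ∀ i, ∃ y, (i, y) ∈ O := hVall
  choose b hb using ex
  refine ⟨r, fun i => (j (i, b i)).1, ?_, ?_⟩
  · intro i
    have := cj_apply (slots r) ι (Sum.inr i)
    rw [rr, h0, r0] at this
    exact this
  · intro i
    have h1 := cj_apply (slots r) ι (emb2 (i, b i))
    rw [rO _ (hb i), hj, rO'] at h1
    · exact h1
    · exact O1 _ (hb i)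

end orient

end Pool.Agent.Helper1.JD
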