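import Pool.Agent.Helper1.JD.Str5
import Pool.Agent.Helper1.JD.Quat
import Pool.Agent.Helper1.JD.Spin3

namespace Pool.Agent.Helper1.JD

open Finset

theorem lperm_mem {t l d : ℕ} {H : AddSubgroup A} (hH : Kl d (l - 1) ≤ H) (s : Equiv.Perm (Fin l))
    {ι : Equiv.Perm (Half t l)} (hι : Valid ι) (hd : t + l = 2 * d) :
    cl (cj (lperm s) ι) ∈ H ↔ cl ι ∈ H := by
  have h := hH (cl_lperm s hι hd)
  constructor
  · intro h1
    have := sub_mem h1 h
    simpa using this
  · intro h1
    have := add_mem h h1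
    simpa using this

theorem exists_wheel_perm {n : ℕ} (hn : 1 ≤ n) {ι : Equiv.Perm (Half (n + 1) (n + 1))}
    (hι : Valid ι) (σ : Fin (n + 1) → Fin (n + 1))
    (h0 : ∀ i, ι (Sum.inr i) = Sum.inl (i, 0))
    (h2 : ∀ i, ι (Sum.inl (i, 2)) = Sum.inl (σ i, 1)) :
    ∃ s : Equiv.Perm (Fin (n + 1)), cj (lperm s) (cj (vperm s) ι) = (wheel n).ι := by
  have hinj : Function.Injective σ := by
    intro i i' e
    have : ι (Sum.inl (i, 2)) = ι (Sum.inl (i', 2)) := by rw [h2, h2, e]
    exact (Prod.mk.inj (Sum.inl_injective (ι.injective this))).1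
  set p : Equiv.Perm (Fin (n + 1)) := Equiv.ofBijective σ (Finite.injective_iff_bijective.1 hinj)
    with hp
  have hpa : ∀ i, p i = σ i := fun i => rfl
  have h0' : ∀ i, ι (Sum.inl (i, 0)) = Sum.inr i := fun i => by rw [← h0, hι.1]
  have h1 : ∀ i, ι (Sum.inl (i, 1)) = Sum.inl (p.symm i, 2) := by
    intro i
    have e : Sum.inl (i, 1) = ι (Sum.inl (p.symm i, 2)) := by
      rw [h2, ← hpa, Equiv.apply_symm_apply]
    rw [e, hι.1]
  have hsc : ∀ i, Equiv.Perm.SameCycle p 0 i := by
    set P : Set (Half (n + 1) (n + 1)) := {h | (∃ i k, Equiv.Perm.SameCycle p 0 i ∧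
      h = Sum.inl (i, k)) ∨ ∃ i, Equiv.Perm.SameCycle p 0 i ∧ h = Sum.inr i} with hP
    have hcl : Closed ι P := by
      constructor
      · rintro h (⟨i, k, hi, rfl⟩ | ⟨i, hi, rfl⟩)
        · fin_cases k
          · right; exact ⟨i, hi, h0' i⟩
          · left; exact ⟨_, _, Equiv.Perm.SameCycle.symm_apply_right hi, h1 i⟩
          · left; exact ⟨_, _, Equiv.Perm.SameCycle.apply_right hi, h2 i⟩
        · left; exact ⟨i, 0, hi, h0 i⟩
      · rintro i k k' (⟨i', m, hi, e⟩ | ⟨i', hi, e⟩)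
        · have := (Prod.mk.inj (Sum.inl_injective e)).1
          subst this
          left; exact ⟨i, k', hi, rfl⟩
        · cases e
    have huniv := hι.2.2.1 P hcl ⟨Sum.inr 0, Or.inr ⟨0, Equiv.Perm.SameCycle.refl _ _, rfl⟩⟩
    intro i
    have : (Sum.inr i : Half (n + 1) (n + 1)) ∈ P := by rw [huniv]; trivial
    rcases this with ⟨i', m, hi, e⟩ | ⟨i', hi, e⟩
    · cases e
    · rw [Sum.inr_injective e]; exact hi
  have hne0 : p 0 ≠ 0 := by
    intro h
    have hall : ∀ i : Fin (n + 1), i = 0 := by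
      intro i
      obtain ⟨k, hk⟩ := hsc i
      rw [← hk]
      exact Equiv.Perm.zpow_apply_eq_self_of_apply_eq_self h k
    have := congrArg Fin.val (hall (Fin.last n))
    simp at this
    omega
  have hne : ∀ i, p i ≠ i := fun i h => hne0 ((hsc i).apply_eq_self_iff.2 h)
  have hcyc : p.IsCycle := ⟨0, hne0, fun y _ => hsc y⟩
  have hsupp : p.support = univ := by
    ext i
    simp [hne i]
  obtain ⟨m, rfl⟩ : ∃ m, n = m + 1 := ⟨n - 1, by omega⟩
  have hconj : IsConj p (finRotate (m + 2)) := by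
    apply hcyc.isConj isCycle_finRotate
    rw [hsupp, support_finRotate]
  obtain ⟨s, hs⟩ := isConj_iff.1 hconj
  have hs' : ∀ i, s (p i) = finRotate (m + 2) (s i) := by
    intro i
    rw [← hs]
    simp
  refine ⟨s, ?_⟩
  have a0 : ∀ i, cj (vperm s) ι (Sum.inr i) = Sum.inl (s i, 0) := by
    intro i
    have := cj_apply (vperm s) ι (Sum.inr i)
    rw [vperm_inr, h0, vperm_inl] at this
    exact this
  have a2 : ∀ i, cj (vperm s) ι (Sum.inl (s i, 2)) = Sum.inl (finRotate (m + 2) (s i), 1) := by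
    intro i
    have := cj_apply (vperm s) ι (Sum.inl (i, 2))
    rw [vperm_inl, h2, vperm_inl, ← hpa, hs'] at this
    exact this
  have b0 : ∀ i, cj (lperm s) (cj (vperm s) ι) (Sum.inr (s i)) = Sum.inl (s i, 0) := by
    intro i
    have := cj_apply (lperm s) (cj (vperm s) ι) (Sum.inr i)
    rw [lperm_inr, a0, lperm_inl] at this
    exact this
  have b2 : ∀ i, cj (lperm s) (cj (vperm s) ι) (Sum.inl (s i, 2)) =
      Sum.inl (finRotate (m + 2) (s i), 1) := by
    intro i
    have := cj_apply (lperm s) (cj (vperm s) ι) (Sum.inl (s i, 2))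
    rw [lperm_inl, a2, lperm_inl] at this
    exact this
  have inv : ∀ x, cj (lperm s) (cj (vperm s) ι) (cj (lperm s) (cj (vperm s) ι) x) = x :=
    (valid_lperm s (valid_vperm s hι)).1
  have c0 : ∀ i, cj (lperm s) (cj (vperm s) ι) (Sum.inr i) = Sum.inl (i, 0) := by
    intro i
    have := b0 (s.symm i)
    rwa [Equiv.apply_symm_apply] at this
  have c2 : ∀ i, cj (lperm s) (cj (vperm s) ι) (Sum.inl (i, 2)) =
      Sum.inl (finRotate (m + 2) i, 1) := by
    intro i
    have := b2 (s.symm i)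
    rwa [Equiv.apply_symm_apply] at this
  ext x : 1
  rcases x with ⟨i, k⟩ | i
  · fin_cases k
    · show cj (lperm s) (cj (vperm s) ι) (Sum.inl (i, 0)) = Sum.inr i
      rw [← c0, inv]
    · show cj (lperm s) (cj (vperm s) ι) (Sum.inl (i, 1)) =
        Sum.inl ((finRotate (m + 2)).symm i, 2)
      have e : Sum.inl (i, 1) =
          cj (lperm s) (cj (vperm s) ι) (Sum.inl ((finRotate (m + 2)).symm i, 2)) := by
        rw [c2, Equiv.apply_symm_apply]
      rw [e, inv]
    · exact c2 i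
  · exact c0 i

theorem wheel_valid (n : ℕ) : Valid (wheel n).ι :=
  valid_of _ (wheel_connected n) (Nat.succ_pos n)

/-- a connected diagram with `d` legs is a multiple of the wheel modulo fewer legs -/
theorem cl_top {n : ℕ} (hn : 2 ≤ n) {ι : Equiv.Perm (Half (n + 1) (n + 1))} (hι : Valid ι)
    {H : AddSubgroup A} (hH : Kl (n + 1) n ≤ H) (hw : cls (wheel n) ∈ H) : cl ι ∈ H := by
  have hd : (n + 1) + (n + 1) = 2 * (n + 1) := by omega
  have hH' : Kl (n + 1) (n + 1 - 1) ≤ H := hH
  rcases cherry_or_inj (by omega) hι hd with h | ⟨f, hf, hinj⟩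
  · exact hH h
  set e : Equiv.Perm (Fin (n + 1)) :=
    Equiv.ofBijective (fun j => (f j).1) (Finite.injective_iff_bijective.1 hinj) with he
  have hea : ∀ j, e j = (f j).1 := fun j => rfl
  set r : Fin (n + 1) → Equiv.Perm (Fin 3) := fun i => Equiv.swap (f (e.symm i)).2 0 with hr
  have h1 := (SM_slots (l := n + 1) r ι hι).1
  have e1 : ∀ j, cj (slots r) ι (Sum.inr j) = Sum.inl (e j, 0) := by
    intro j
    have := cj_apply (slots r) ι (Sum.inr j)
    have h2 : (slots r : Equiv.Perm (Half (n + 1) (n + 1))) (Sum.inr j) = Sum.inr j := rfl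
    have h3 : (slots r : Equiv.Perm (Half (n + 1) (n + 1))) (Sum.inl (f j)) = Sum.inl (e j, 0) := by
      show Sum.inl ((f j).1, Equiv.swap (f (e.symm (f j).1)).2 0 (f j).2) = _
      rw [← hea, Equiv.symm_apply_apply, Equiv.swap_apply_left]
    rw [h2, hf, h3] at this
    exact this
  rw [← slots_mem H r hι, ← lperm_mem hH' e h1 hd]
  have h4 := valid_lperm e h1
  have e2 : ∀ i, cj (lperm e) (cj (slots r) ι) (Sum.inr i) = Sum.inl (i, 0) := by
    intro i
    have := cj_apply (lperm e) (cj (slots r) ι) (Sum.inr (e.symm i))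
    rw [lperm_inr, e1, lperm_inl, Equiv.apply_symm_apply] at this
    exact this
  obtain ⟨r', σ, h5, h6⟩ := exists_orient h4 e2
  rw [← slots_mem H r' h4]
  have h7 := (SM_slots (l := n + 1) r' _ h4).1
  obtain ⟨s, hs⟩ := exists_wheel_perm (by omega) h7 σ h5 h6
  obtain ⟨h8, h9⟩ := SM_vperm s _ h7
  rw [one_smul] at h9
  rw [← h9, ← lperm_mem hH' s h8 hd, hs, ← cls_eq_cl _ (wheel_connected n) (Nat.succ_pos n)]
  exact hw

/-- reversing the wheel -/
theorem wheel_rev {n : ℕ} (hn : Odd (n + 1)) : (2 : ℤ) • cls (wheel n) ∈ Kl (n + 1) n := by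
  have hd : (n + 1) + (n + 1) = 2 * (n + 1) := by omega
  have hv := wheel_valid n
  set r : Fin (n + 1) → Equiv.Perm (Fin 3) := fun _ => Equiv.swap 1 2 with hr
  obtain ⟨h1, h2⟩ := SM_slots (l := n + 1) r _ hv
  set s : Equiv.Perm (Fin (n + 1)) := Equiv.neg (Fin (n + 1)) with hs
  have hsa : ∀ i, s i = -i := fun i => rfl
  obtain ⟨h3, h4⟩ := SM_vperm s _ h1
  have h5 := cl_lperm s h3 hd
  have hsign : ∏ i, (Equiv.Perm.sign (r i) : ℤ) = -1 := by
    have : ∀ i, (Equiv.Perm.sign (r i) : ℤ) = -1 := by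
      intro i
      rw [hr]
      show ((Equiv.Perm.sign (Equiv.swap (1 : Fin 3) 2) : ℤˣ) : ℤ) = -1
      rw [Equiv.Perm.sign_swap (by decide)]
      rfl
    rw [Finset.prod_congr rfl fun i _ => this i]
    simp [hn.neg_one_pow]
  have hrot : ∀ i : Fin (n + 1), finRotate (n + 1) i = i + 1 := fun i => finRotate_apply i
  have hrot' : ∀ i : Fin (n + 1), (finRotate (n + 1)).symm i = i - 1 := by
    intro i
    rw [Equiv.symm_apply_eq, hrot, sub_add_cancel]
  have e : cj (lperm s) (cj (vperm s) (cj (slots r) (wheel n).ι)) = (wheel n).ι := by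
    rw [← cj_mul, ← cj_mul]
    apply cj_eq_of
    intro x
    rcases x with ⟨i, k⟩ | i
    · fin_cases k
      · show wheelFun n (Sum.inl (s i, Equiv.swap 1 2 0)) = Sum.inr (s i)
        rw [Equiv.swap_apply_of_ne_of_ne (by decide) (by decide)]
        rfl
      · show wheelFun n (Sum.inl (s i, Equiv.swap 1 2 1)) =
          Sum.inl (s ((finRotate (n + 1)).symm i), Equiv.swap 1 2 2)
        rw [Equiv.swap_apply_left, Equiv.swap_apply_right]
        show Sum.inl (finRotate (n + 1) (s i), 1) = _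
        rw [hrot, hrot', hsa, hsa]
        congr 2
        abel
      · show wheelFun n (Sum.inl (s i, Equiv.swap 1 2 2)) =
          Sum.inl (s (finRotate (n + 1) i), Equiv.swap 1 2 1)
        rw [Equiv.swap_apply_left, Equiv.swap_apply_right]
        show Sum.inl ((finRotate (n + 1)).symm (s i), 2) = _
        rw [hrot, hrot', hsa, hsa]
        congr 2
        abel
    · show Sum.inl (s i, 0) = Sum.inl (s i, Equiv.swap 1 2 0)
      rw [Equiv.swap_apply_of_ne_of_ne (by decide) (by decide)]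
  rw [e, h4, h2, hsign, one_smul, neg_one_smul, sub_neg_eq_add,
    ← cls_eq_cl _ (wheel_connected n) (Nat.succ_pos n), ← two_zsmul] at h5
  exact h5

end Pool.Agent.Helper1.JD
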