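import Pool.Agent.Helper1.JD.Ihx

namespace Pool.Agent.Helper1.JD

open Finset

section
variable {t l : ℕ}

/-- the inverse of `emb` -/
def ret : Half (t + 1) (l + 1) → Option (Half t (l + 2))
  | Sum.inl (v, s) =>
      if h : (v : ℕ) < t then some (Sum.inl (⟨v, h⟩, s))
      else if s = 0 then none
      else if s = 1 then some (Sum.inr ⟨l, by omega⟩) else some (Sum.inr ⟨l + 1, by omega⟩)
  | Sum.inr j => if h : (j : ℕ) < l then some (Sum.inr ⟨j, by omega⟩) else none

theorem emb_inl (i : Fin t) (k : Fin 3) :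
    (emb (Sum.inl (i, k)) : Half (t + 1) (l + 1)) = Sum.inl (i.castSucc, k) := rfl

theorem emb_lt (j : Fin (l + 2)) (h : (j : ℕ) < l) :
    (emb (Sum.inr j) : Half (t + 1) (l + 1)) = Sum.inr ⟨j, Nat.lt_succ_of_lt h⟩ := by
  simp [emb, h]

theorem emb_l : (emb (Sum.inr ⟨l, by omega⟩) : Half (t + 1) (l + 1)) = Sum.inl (Fin.last t, 1) := by
  simp [emb]

theorem emb_l1 :
    (emb (Sum.inr ⟨l + 1, by omega⟩) : Half (t + 1) (l + 1)) = Sum.inl (Fin.last t, 2) := by
  simp [emb]

theorem ret_last0 : (ret (Sum.inl (Fin.last t, 0)) : Option (Half t (l + 2))) = none := by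
  simp [ret]

theorem ret_last1 : (ret (Sum.inl (Fin.last t, 1)) : Option (Half t (l + 2))) =
    some (Sum.inr ⟨l, by omega⟩) := by
  simp [ret]

theorem ret_last2 : (ret (Sum.inl (Fin.last t, 2)) : Option (Half t (l + 2))) =
    some (Sum.inr ⟨l + 1, by omega⟩) := by
  simp [ret]

theorem ret_castSucc (i : Fin t) (s : Fin 3) :
    (ret (Sum.inl (i.castSucc, s)) : Option (Half t (l + 2))) = some (Sum.inl (i, s)) := by
  simp [ret]

theorem ret_inr_last : (ret (Sum.inr (Fin.last l)) : Option (Half t (l + 2))) = none := by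
  simp [ret]

theorem ret_inr_castSucc (j : Fin l) :
    (ret (Sum.inr j.castSucc) : Option (Half t (l + 2))) = some (Sum.inr ⟨j, by omega⟩) := by
  simp [ret]

theorem half_cases {P : Half t (l + 2) → Prop} (h1 : ∀ i s, P (Sum.inl (i, s)))
    (h2 : ∀ (j : Fin l), P (Sum.inr ⟨j, by omega⟩)) (h3 : P (Sum.inr ⟨l, by omega⟩))
    (h4 : P (Sum.inr ⟨l + 1, by omega⟩)) (h) : P h := by
  rcases h with ⟨i, s⟩ | j
  · exact h1 i s
  · rcases Nat.lt_trichotomy (j : ℕ) l with h | h | h
    · exact h2 ⟨j, h⟩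
    · have : j = ⟨l, by omega⟩ := Fin.ext h
      rw [this]; exact h3
    · have : j = ⟨l + 1, by omega⟩ := Fin.ext (by simp; omega)
      rw [this]; exact h4

theorem half_cases' {P : Half (t + 1) (l + 1) → Prop} (h1 : ∀ h, P (emb h))
    (h2 : P (Sum.inl (Fin.last t, 0))) (h3 : P (Sum.inr (Fin.last l))) (h) : P h := by
  rcases h with ⟨i, s⟩ | j
  · induction i using Fin.lastCases with
    | last =>
      have a1 := h1 (Sum.inr ⟨l, by omega⟩)
      have a2 := h1 (Sum.inr ⟨l + 1, by omega⟩)
      rw [emb_l] at a1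
      rw [emb_l1] at a2
      fin_cases s
      · exact h2
      · exact a1
      · exact a2
    | cast i => exact h1 (Sum.inl (i, s))
  · induction j using Fin.lastCases with
    | last => exact h3
    | cast j =>
      have := h1 (Sum.inr ⟨j, by omega⟩)
      rw [emb_lt _ j.2] at this
      exact this

theorem ret_emb (h : Half t (l + 2)) : ret (emb h) = some h := by
  induction h using half_cases with
  | h1 i s => rw [emb_inl, ret_castSucc]
  | h2 j => rw [emb_lt _ j.2]; exact ret_inr_castSucc j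
  | h3 => rw [emb_l, ret_last1]
  | h4 => rw [emb_l1, ret_last2]

theorem emb_injective : Function.Injective (emb : Half t (l + 2) → Half (t + 1) (l + 1)) := by
  intro a b h
  have := congrArg ret h
  rw [ret_emb, ret_emb] at this
  exact Option.some.inj this

/-- extension of a colouring of `T` to `S` -/
def ext (c : Half t (l + 2) → Fin 3) (k : Fin 3) : Half (t + 1) (l + 1) → Fin 3 :=
  fun h => (ret h).elim k c

theorem ext_emb (c : Half t (l + 2) → Fin 3) (k : Fin 3) (h) : ext c k (emb h) = c h := by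
  unfold ext; rw [ret_emb]; rfl

variable {R : Type*} [Ring R] {B : Type*} [AddCommGroup B] (X : Fin 3 → R) (τ : R →+ B)

theorem sum_col_S (T : Diag t (l + 2)) (S : Diag (t + 1) (l + 1))
    (hS : ∀ h, S.ι (emb h) = emb (T.ι h))
    (hS' : S.ι (Sum.inl (Fin.last t, 0)) = Sum.inr (Fin.last l))
    (F : (Half (t + 1) (l + 1) → Fin 3) → B) :
    ∑ c ∈ col S.ι, F c = ∑ c ∈ col T.ι, ∑ k : Fin 3, F (ext c k) := by
  have hS'' : S.ι (Sum.inr (Fin.last l)) = Sum.inl (Fin.last t, 0) := by rw [← hS', S.invol]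
  rw [← Finset.sum_product']
  symm
  refine Finset.sum_bij' (fun p _ => ext p.1 p.2)
    (fun c _ => (fun h => c (emb h), c (Sum.inl (Fin.last t, 0)))) ?_ ?_ ?_ ?_ ?_
  · rintro ⟨c, k⟩ hc
    simp only [Finset.mem_product, mem_univ, and_true] at hc
    rw [mem_col] at hc ⊢
    intro h
    induction h using half_cases' with
    | h1 h => rw [hS, ext_emb, ext_emb]; exact hc h
    | h2 => rw [hS']; unfold ext; rw [ret_last0, ret_inr_last]
    | h3 => rw [hS'']; unfold ext; rw [ret_last0, ret_inr_last]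
  · intro c hc
    simp only [Finset.mem_product, mem_univ, and_true]
    rw [mem_col] at hc ⊢
    intro h
    rw [← hS, hc]
  · rintro ⟨c, k⟩ hc
    simp only [Prod.mk.injEq]
    constructor
    · funext h; rw [ext_emb]
    · unfold ext; rw [ret_last0]; rfl
  · intro c hc
    rw [mem_col] at hc
    funext h
    induction h using half_cases' with
    | h1 h => rw [ext_emb]
    | h2 => unfold ext; rw [ret_last0]; rfl
    | h3 =>
      unfold ext
      rw [ret_inr_last]
      have := hc (Sum.inl (Fin.last t, 0))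
      rw [hS'] at this
      exact this.symm
  · intro p _
    rfl

theorem vprod_ext (c : Half t (l + 2) → Fin 3) (k : Fin 3) :
    vprod (ext c k) =
      vprod c * eps k (c (Sum.inr ⟨l, by omega⟩)) (c (Sum.inr ⟨l + 1, by omega⟩)) := by
  unfold vprod
  rw [Fin.prod_univ_castSucc]
  congr 1
  · refine Finset.prod_congr rfl fun i _ => ?_
    unfold ext
    rw [ret_castSucc, ret_castSucc, ret_castSucc]
    rfl
  · unfold ext
    rw [ret_last0, ret_last1, ret_last2]
    rfl

theorem legval_ext (c : Half t (l + 2) → Fin 3) (k : Fin 3) :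
    legval X τ (ext c k) =
      τ ((List.ofFn fun j : Fin l => X (c (Sum.inr ⟨j, by omega⟩))).prod * X k) := by
  unfold legval
  rw [List.ofFn_succ', List.concat_eq_append, List.prod_append, List.prod_singleton]
  congr 1
  congr 1
  · congr 2
    funext j
    unfold ext
    rw [ret_inr_castSucc]
    rfl
  · unfold ext
    rw [ret_inr_last]
    rfl

theorem legval_two (c : Half t (l + 2) → Fin 3) :
    legval X τ c =
      τ ((List.ofFn fun j : Fin l => X (c (Sum.inr ⟨j, by omega⟩))).prod *
        (X (c (Sum.inr ⟨l, by omega⟩)) * X (c (Sum.inr ⟨l + 1, by omega⟩)))) := by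
  unfold legval
  rw [List.ofFn_succ', List.concat_eq_append, List.prod_append, List.prod_singleton,
    List.ofFn_succ', List.concat_eq_append, List.prod_append, List.prod_singleton, mul_assoc]
  rfl

theorem wt_stu (hX : ∀ a b, X a * X b - X b * X a = ∑ k, (2 * eps a b k) • X k)
    (T U : Diag t (l + 2)) (S : Diag (t + 1) (l + 1))
    (hU : Moved (lperm (Equiv.swap ⟨l, by omega⟩ ⟨l + 1, by omega⟩)) T U)
    (hS : ∀ h, S.ι (emb h) = emb (T.ι h))
    (hS' : S.ι (Sum.inl (Fin.last t, 0)) = Sum.inr (Fin.last l)) :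
    wt X τ T - wt X τ U - wt X τ S = 0 := by
  unfold wt
  rw [csum_moved X τ hU]
  unfold csum
  rw [sum_col_S T S hS hS', pow_succ, mul_smul, ← smul_sub, ← smul_sub, Finset.smul_sum,
    ← Finset.sum_sub_distrib, ← Finset.sum_sub_distrib, Finset.sum_eq_zero, smul_zero]
  intro c _
  have hs : ∀ x, (lperm (Equiv.swap ⟨l, by omega⟩ ⟨l + 1, by omega⟩) :
      Equiv.Perm (Half t (l + 2))).symm (Sum.inr x) =
      Sum.inr (Equiv.swap (⟨l, by omega⟩ : Fin (l + 2)) ⟨l + 1, by omega⟩ x) := by
    intro x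
    rw [Equiv.symm_apply_eq]
    show Sum.inr x = Sum.inr (Equiv.swap (⟨l, by omega⟩ : Fin (l + 2)) ⟨l + 1, by omega⟩
      (Equiv.swap (⟨l, by omega⟩ : Fin (l + 2)) ⟨l + 1, by omega⟩ x))
    rw [Equiv.swap_apply_self]
  have e1 : term X τ (fun x => c ((lperm (Equiv.swap ⟨l, by omega⟩ ⟨l + 1, by omega⟩) :
      Equiv.Perm (Half t (l + 2))).symm x)) = vprod c •
      τ ((List.ofFn fun j : Fin l => X (c (Sum.inr ⟨j, by omega⟩))).prod *
        (X (c (Sum.inr ⟨l + 1, by omega⟩)) * X (c (Sum.inr ⟨l, by omega⟩)))) := by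
    unfold term
    congr 1
    rw [legval_two]
    simp only [hs, Equiv.swap_apply_left, Equiv.swap_apply_right]
    congr 2
    congr 2
    funext j
    rw [Equiv.swap_apply_of_ne_of_ne]
    · intro h; have := congrArg Fin.val h; have := j.2; simp at *; omega
    · intro h; have := congrArg Fin.val h; have := j.2; simp at *; omega
  rw [e1]
  have e2 : term X τ c = vprod c •
      τ ((List.ofFn fun j : Fin l => X (c (Sum.inr ⟨j, by omega⟩))).prod *
        (X (c (Sum.inr ⟨l, by omega⟩)) * X (c (Sum.inr ⟨l + 1, by omega⟩)))) := by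
    unfold term
    rw [legval_two]
  rw [e2, ← smul_sub, ← map_sub, ← mul_sub, hX, Finset.mul_sum, map_sum, Finset.smul_sum,
    Finset.smul_sum, ← Finset.sum_sub_distrib]
  refine Finset.sum_eq_zero fun k _ => ?_
  unfold term
  rw [vprod_ext, legval_ext, mul_smul_comm, map_zsmul, ← eps_cyc k]
  rw [smul_smul, smul_smul, sub_eq_zero]
  congr 1
  ring

end

end Pool.Agent.Helper1.JD
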