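import Pool.Agent.Helper1.JD.Defs

namespace Pool.Agent.Helper1.JD

open Finset

/-- Levi-Civita symbol -/
def eps (a b c : Fin 3) : ℤ :=
  ((((b : ℕ) : ℤ) - ((a : ℕ) : ℤ)) * (((c : ℕ) : ℤ) - ((a : ℕ) : ℤ)) *
    (((c : ℕ) : ℤ) - ((b : ℕ) : ℤ))) / 2

theorem eps_swap01 : ∀ a b c : Fin 3, eps b a c = - eps a b c := by decide
theorem eps_swap12 : ∀ a b c : Fin 3, eps a c b = - eps a b c := by decide
theorem eps_swap02 : ∀ a b c : Fin 3, eps c b a = - eps a b c := by decide
theorem eps_cyc : ∀ a b c : Fin 3, eps b c a = eps a b c := by decide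
theorem eps_ihx : ∀ a a' b b' : Fin 3,
    ∑ k : Fin 3, (eps k a a' * eps k b b' + eps k a b' * eps k a' b + eps k a b * eps k b' a') = 0 := by
  decide

theorem eps_comp (d : Fin 3 → Fin 3) : ∀ k k' : Fin 3, k ≠ k' →
    eps (d (Equiv.swap k k' 0)) (d (Equiv.swap k k' 1)) (d (Equiv.swap k k' 2)) =
      - eps (d 0) (d 1) (d 2) := by
  intro k k' hk
  have e01 := eps_swap01 (d 0) (d 1) (d 2)
  have e12 := eps_swap12 (d 0) (d 1) (d 2)
  have e02 := eps_swap02 (d 0) (d 1) (d 2)
  fin_cases k <;> fin_cases k' <;> first | exact absurd rfl hk | exact e01 | exact e12 | exact e02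

section
variable {R : Type*} [Ring R] {B : Type*} [AddCommGroup B] (X : Fin 3 → R) (τ : R →+ B)
variable {t l : ℕ}

def legval (c : Half t l → Fin 3) : B := τ ((List.ofFn fun j : Fin l => X (c (Sum.inr j))).prod)

def vprod (c : Half t l → Fin 3) : ℤ :=
  ∏ i : Fin t, eps (c (Sum.inl (i, 0))) (c (Sum.inl (i, 1))) (c (Sum.inl (i, 2)))

def term (c : Half t l → Fin 3) : B := vprod c • legval X τ c

def col (ι : Half t l → Half t l) : Finset (Half t l → Fin 3) :=
  univ.filter fun c => ∀ h, c (ι h) = c h

theorem mem_col {ι : Half t l → Half t l} {c : Half t l → Fin 3} :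
    c ∈ col ι ↔ ∀ h, c (ι h) = c h := by simp [col]

def csum (D : Diag t l) : B := ∑ c ∈ col D.ι, term X τ c

def wt (D : Diag t l) : B := (2 ^ t : ℤ) • csum X τ D

theorem moved_apply {g : Equiv.Perm (Half t l)} {D D' : Diag t l} (h : Moved g D D') (x : Half t l) :
    D'.ι (g x) = g (D.ι x) := by
  rw [h]
  simp

theorem moved_apply' {g : Equiv.Perm (Half t l)} {D D' : Diag t l} (h : Moved g D D')
    (x : Half t l) : g.symm (D'.ι x) = D.ι (g.symm x) := by
  rw [Equiv.symm_apply_eq, ← moved_apply h]
  simp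

theorem csum_moved {g : Equiv.Perm (Half t l)} {D D' : Diag t l} (h : Moved g D D') :
    csum X τ D' = ∑ c ∈ col D.ι, term X τ (fun x => c (g.symm x)) := by
  unfold csum
  refine Finset.sum_bij' (fun c _ => fun x => c (g x)) (fun c _ => fun x => c (g.symm x))
    ?_ ?_ ?_ ?_ ?_
  · intro c hc
    rw [mem_col] at hc ⊢
    intro x
    have := hc (g x)
    rw [moved_apply h] at this
    exact this
  · intro c hc
    rw [mem_col] at hc ⊢
    intro x
    rw [moved_apply' h]
    exact hc _
  · intro c _
    funext x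
    simp
  · intro c _
    funext x
    simp
  · intro c _
    congr 1
    funext x
    simp

theorem wt_vert (s : Equiv.Perm (Fin t)) {D D' : Diag t l} (h : Moved (vperm s) D D') :
    wt X τ D' = wt X τ D := by
  unfold wt
  rw [csum_moved X τ h]
  unfold csum
  congr 1
  refine Finset.sum_congr rfl fun c _ => ?_
  unfold term
  congr 1
  · unfold vprod
    refine Fintype.prod_equiv (s.symm) _ _ fun i => ?_
    rfl

theorem wt_rot (hτ : ∀ x y, τ (x * y) = τ (y * x)) {D D' : Diag t l}
    (h : Moved (lperm (finRotate l)) D D') :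
    wt X τ D' = wt X τ D := by
  unfold wt
  rw [csum_moved X τ h]
  unfold csum
  congr 1
  refine Finset.sum_congr rfl fun c _ => ?_
  unfold term
  congr 1
  unfold legval
  cases l with
  | zero => rfl
  | succ l =>
    have e1 : (List.ofFn fun j : Fin (l + 1) =>
        X (c ((lperm (finRotate (l + 1))).symm (Sum.inr j)))) =
        X (c (Sum.inr (Fin.last l))) :: List.ofFn (fun j : Fin l => X (c (Sum.inr j.castSucc))) := by
      have a0 : (lperm (finRotate (l + 1)) : Equiv.Perm (Half t (l + 1))).symm (Sum.inr 0) =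
            Sum.inr (Fin.last l) := by
          rw [Equiv.symm_apply_eq]
          simp [lperm]
      have a1 : ∀ j : Fin l, (lperm (finRotate (l + 1)) : Equiv.Perm (Half t (l + 1))).symm
          (Sum.inr j.succ) = Sum.inr j.castSucc := by
          intro j
          rw [Equiv.symm_apply_eq]
          simp [lperm]
      rw [List.ofFn_succ, a0]
      simp only [a1]
    have e2 : (List.ofFn fun j : Fin (l + 1) => X (c (Sum.inr j))) =
        (List.ofFn (fun j : Fin l => X (c (Sum.inr j.castSucc)))) ++ [X (c (Sum.inr (Fin.last l)))] := by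
      rw [List.ofFn_succ', List.concat_eq_append]
    rw [e1, e2, List.prod_cons, List.prod_append, List.prod_singleton, hτ]

theorem wt_as (i : Fin t) (k k' : Fin 3) (hk : k ≠ k') {D D' : Diag t l}
    (h : Moved (Equiv.swap (Sum.inl (i, k)) (Sum.inl (i, k'))) D D') :
    wt X τ D' + wt X τ D = 0 := by
  unfold wt
  rw [csum_moved X τ h]
  unfold csum
  rw [← smul_add, ← Finset.sum_add_distrib]
  rw [Finset.sum_eq_zero, smul_zero]
  intro c _
  rw [Equiv.symm_swap]
  unfold term
  have h1 : legval X τ (fun x => c (Equiv.swap (Sum.inl (i, k)) (Sum.inl (i, k')) x))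
      = legval X τ c := by
    unfold legval
    congr 3
  have h2 : vprod (fun x => c (Equiv.swap (Sum.inl (i, k)) (Sum.inl (i, k')) x))
      = - vprod c := by
    unfold vprod
    rw [← Finset.mul_prod_erase univ _ (mem_univ i)]
    rw [← Finset.mul_prod_erase univ (fun i => eps (c (Sum.inl (i, 0))) (c (Sum.inl (i, 1))) (c (Sum.inl (i, 2)))) (mem_univ i)]
    rw [← neg_mul]
    congr 1
    · rw [← eps_comp (fun k => c (Sum.inl (i, k))) k k' hk]
      have key : ∀ k'' : Fin 3, (Equiv.swap (Sum.inl (i, k)) (Sum.inl (i, k')) : Equiv.Perm (Half t l))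
          (Sum.inl (i, k'')) = Sum.inl (i, Equiv.swap k k' k'') := by
        intro k''
        simp only [Equiv.swap_apply_def, Sum.inl.injEq, Prod.mk.injEq, true_and]
        split_ifs <;> rfl
      beta_reduce
      rw [key, key, key]
    · refine Finset.prod_congr rfl fun j hj => ?_
      have hji : j ≠ i := Finset.ne_of_mem_erase hj
      have key : ∀ k'' : Fin 3, (Equiv.swap (Sum.inl (i, k)) (Sum.inl (i, k')) : Equiv.Perm (Half t l))
          (Sum.inl (j, k'')) = Sum.inl (j, k'') := by
        intro k''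
        apply Equiv.swap_apply_of_ne_of_ne <;> simp [hji]
      beta_reduce
      rw [key, key, key]
  rw [h1, h2]
  simp

end

end Pool.Agent.Helper1.JD
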